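import Pool.Agent.X218.OT.Fin1

/-!
# The 2-part of the Birch and Swinnerton-Dyer conjecture for the abelian varieties `E_D ⊗ M`, `M` a
# lattice without fixed vectors for a cyclic group of odd order, for all twists `E_D` of `X_0(14)`

`E_D` is the quadratic twist by `D = 1` modulo `4` (squarefree, positive or negative) of the modular
curve `X_0(14)`.  `K` is a field of odd degree in the `q`-th cyclotomic field, `q` a power of a prime,
with odd narrow class number, in which the primes dividing `14 D` are inert; for `q = 3^n`, that is for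
all layers of the cyclotomic `ℤ₃`-extension of `ℚ`, the conditions at `2`, `7` and on the class number are
proved.  `M = ℤ^g` is any lattice with an action of `G = Gal(K/ℚ)` and `M^G = 0`, and `A = E_D ⊗ M`, an
abelian variety over `ℚ` of dimension `g`, which becomes isomorphic to `E_D^g` over `K`; its dual is
`E_D ⊗ M^∨`.  (As `E_D` has no complex multiplication, every abelian variety `A` over `ℚ` that becomes
isomorphic to `E_D^g` over `K` is of the form `E_D ⊗ M`, and `M^G = 0` means that `E_D` is not a factor of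
`A` up to isogeny.  An example is the kernel of the norm from the restriction of scalars of `E_D` to
`E_D`, with `g = [K : ℚ] - 1`.)

We prove the 2-part of the formula of Birch and Swinnerton-Dyer for all these abelian varieties, for
EVERY `D`, also when `E_D(ℚ)` has positive rank and `Ш(E_D/ℚ)` has elements of even order, and even if
nothing is known about the formula for `E_D` over `ℚ`: `A(ℚ)` and `A'(ℚ)` are finite of odd order,
`Ш(A/ℚ)[2^∞] = 0`, the `L`-function of `A` is entire, and `L(A, 1)` is the product of the volumes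
`V_∞`, `V_bad` and of a rational number which is a unit at 2.

The volumes.  `K` is totally real, so `A(ℝ) = E_D(ℝ) ⊗ M = E_D(ℝ)^g` and its volume for the differential
`η` given by the Néron differential of `E_D` and a basis of `M` is `realPeriod^g` (`η` is defined over `ℚ`,
as `det = 1` on `M`).  At the primes `p` that do not divide `q` the field `K` is unramified, and `η` is a
Néron differential of `A`; the volume of `A(ℚ_p)` is `det (1 - a_p / p ρ(p)) = #𝒜⁰(𝔽_p) / p^g` times the
number of the rational components of the special fibre, and this is odd: the 2-part of the group of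
components is `Φ ⊗ M` (`Φ` that of `E_D`) at `2` and `7` and `E_D[2] ⊗ M` at the primes dividing `D`, and
`M / 2` has no vectors that are fixed by the Frobenius at `p`, which generates `G`.  At the prime `l ∣ q`
the abelian variety has potentially good reduction, `l` is totally ramified in `K`, and the connected
special fibre is unipotent, as `H¹(A)` has no invariants under the inertia group `G`; the number of the
components is odd, as `G` is of odd order; so the volume of `A(ℚ_l)` is a power of `l` times an odd number,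
and a Néron differential of `A` is `η` times a power of `l`.  These rational factors are units at 2, and
the formula can be written with the product of `realPeriod^g` and the `det (1 - a_p / p ρ(p))`,
`p ∣ Δ(E_D)`, in the place of `V_∞ V_bad`.

The proof.  Descent with the two isogenies of degree two over `K`, in a form that works for `E_D ⊗ M`
(the averages over `G` of points and of cocycles with values in `M ⊗ E_D(K)` vanish, as `M^G = 0`).  The
`L`-function of `A` is a product of `L(E_D, χ, s)` for characters `χ ≠ 1` of `G`; the values at `s = 1` are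
Gauss sums times twisted sums of modular symbols, and modulo the primes above `2` these are given by the
signs of cyclotomic units.
-/

set_option autoImplicit false

open NumberField IsDedekindDomain WeierstrassCurve MeasureTheory

namespace Pool.Agent.Results.MP_dfae13_nt.AllTwistsTensorOdd

open scoped Classical

open Pool.Agent.TH841.SH.D (Pt act Gal)

open Pool.Agent.Y682 (NCl)

/-- The quadratic twist `E_D` of `X_0(14)` (`D = 1` modulo `4`), with its global minimal equation
`y² + x y + y = x³ + ((D - 1)/4) x² + ((9 D² - 1)/2) x - (23 D³ + 1)/4`.  It is isomorphic to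
`Y² = X (X² + 13 D X + 128 D²)` by `X = 4 (x - D)`, `Y = 4 (2 y + x + 1)`. -/
def twist (D : ℤ) : WeierstrassCurve ℤ :=
  ⟨1, (D - 1) / 4, 1, (9 * D ^ 2 - 1) / 2, -((23 * D ^ 3 + 1) / 4)⟩

/-- The curve given by the equation of `W` over the ring `R`. -/
abbrev base (W : WeierstrassCurve ℤ) (R : Type) [CommRing R] : WeierstrassCurve R :=
  W.map (Int.castRingHom R)

/-- The number of the affine points `(x, y)` over the ring `R`. -/
noncomputable def pts (W : WeierstrassCurve ℤ) (R : Type) [CommRing R] : ℕ :=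
  Nat.card {P : R × R // (base W R).toAffine.Equation P.1 P.2}

/-- `4 x³ + b₂ x² + 2 b₄ x + b₆ = (2 y + a₁ x + a₃)²`, where `b₂ = a₁² + 4 a₂`,
`b₄ = 2 a₄ + a₁ a₃`, `b₆ = a₃² + 4 a₆`. -/
def cubic (W : WeierstrassCurve ℤ) {R : Type} [CommRing R] (x : R) : R :=
  4 * x ^ 3 + W.b₂ * x ^ 2 + 2 * W.b₄ * x + W.b₆

/-- `∫_{W(ℝ)} |ω|` with `ω = dx / (2 y + a₁ x + a₃)`, as an integral over `x`: two real points lie
over each `x` with `cubic x > 0`. -/
noncomputable def realPeriod (W : WeierstrassCurve ℤ) : ℝ :=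
  2 * ∫ x in {x : ℝ | 0 < cubic W x}, 1 / √(cubic W x)

section tensor

/-! ### The abelian variety `A = E ⊗ M`, `M = ℤ^g`

Its points over an algebraic closure of `ℚ` are the `g`-tuples of points of `E`; the Galois group of `ℚ`
acts on them by its action on `E` and the matrices `R(σ)`. -/

/-- The action of an integral matrix on `ℤ^g ⊗ G = G^g`. -/
def mat {G : Type} [AddCommGroup G] {g : ℕ} (A : Matrix (Fin g) (Fin g) ℤ) (P : Fin g → G) :
    Fin g → G := fun i => ∑ j, A i j • P j

variable {g : ℕ} (W : WeierstrassCurve ℤ) (R : Gal ℚ →* GL (Fin g) ℤ)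

/-- The points of `A` over an extension of `ℚ` over which the action on `M` is trivial. -/
abbrev PtA (g : ℕ) (L : Type) [Field L] [Algebra ℚ L] : Type := Fin g → Pt (base W ℚ) L

/-- The action of the Galois group on the points of `A`: `σ` applied to the coordinates, and then the
matrix `R(σ)`. -/
noncomputable def actA (σ : Gal ℚ) (P : PtA W g (AlgebraicClosure ℚ)) :
    PtA W g (AlgebraicClosure ℚ) :=
  mat (R σ : Matrix (Fin g) (Fin g) ℤ) (fun i => act (base W ℚ) σ.toAlgHom (P i))

/-- `A(ℚ)`. -/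
def ptsA : Set (PtA W g (AlgebraicClosure ℚ)) := {P | ∀ σ : Gal ℚ, actA W R σ P = P}

/-- `f` is a continuous cocycle with values in `A`: `f (σ τ) = f σ + σ (f τ)`. -/
def IsCocycle (f : Gal ℚ → PtA W g (AlgebraicClosure ℚ)) : Prop :=
  IsLocallyConstant f ∧ ∀ σ τ : Gal ℚ, f (σ * τ) = f σ + actA W R σ (f τ)

/-- `f` is a coboundary: `f σ = σ P - P`. -/
def IsCoboundary (f : Gal ℚ → PtA W g (AlgebraicClosure ℚ)) : Prop :=
  ∃ P : PtA W g (AlgebraicClosure ℚ), ∀ σ : Gal ℚ, f σ = actA W R σ P - P

/-- For every embedding of the algebraic closures the restriction of `f` to the absolute Galois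
group of `K` is a coboundary: `f σ = τ P - P` for `τ` in this group with restriction `σ`. -/
def LocTriv (K : Type) [Field K] [Algebra ℚ K] (f : Gal ℚ → PtA W g (AlgebraicClosure ℚ)) : Prop :=
  ∀ ι : AlgebraicClosure ℚ →ₐ[ℚ] AlgebraicClosure K, ∃ P : PtA W g (AlgebraicClosure K),
    ∀ (τ : Gal K) (σ : Gal ℚ), (∀ x, τ (ι x) = ι (σ x)) →
      (fun i => act (base W ℚ) ι (f σ i)) = mat (R σ : Matrix (Fin g) (Fin g) ℤ)
        (fun i => act (base W ℚ) (τ.toAlgHom.restrictScalars ℚ) (P i)) - P

/-- `f` is a continuous cocycle that is locally trivial at all the places of `ℚ`; its class is an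
element of `Ш(A/ℚ)`, and this is zero if and only if `f` is a coboundary. -/
def IsShaCocycle (f : Gal ℚ → PtA W g (AlgebraicClosure ℚ)) : Prop :=
  IsCocycle W R f ∧ (∀ (p : ℕ) [Fact p.Prime], LocTriv W R ℚ_[p] f) ∧ LocTriv W R ℝ f

end tensor

section lattice

variable {m g : ℕ} (ρ : (ZMod m)ˣ →* GL (Fin g) ℤ)

/-- The matrix `ρ(p)` of the Frobenius automorphism at a prime `p` that does not divide `m`. -/
noncomputable def frob (p : ℕ) : Matrix (Fin g) (Fin g) ℤ :=
  if h : p.Coprime m then (ρ (ZMod.unitOfCoprime p h) : Matrix (Fin g) (Fin g) ℤ) else 0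

/-- The Euler polynomial of `A = E ⊗ M` at a prime `p` of good reduction that does not divide `m`,
`det (1 - T Frob_p | H¹(A)) = det (1 - a_p T ρ(p) + p T² ρ(p)²)`, where `a_p = p - pts` as `pts` does not
count the point at infinity. -/
noncomputable def P (W : WeierstrassCurve ℤ) (p : ℕ) (T : ℂ) : ℂ :=
  (1 - ((((p : ℤ) - pts W (ZMod p) : ℤ) : ℂ) * T) • (frob ρ p).map (Int.cast : ℤ → ℂ) +
    ((p : ℂ) * T ^ 2) • ((frob ρ p).map (Int.cast : ℤ → ℂ)) ^ 2).det

/-- `det (1 - a_p / p ρ(p)) = #𝒜⁰(𝔽_p) / p^g` at a prime `p` of bad reduction of `E` that does not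
divide `m`. -/
noncomputable def bad (W : WeierstrassCurve ℤ) (p : ℕ) : ℝ :=
  (1 - ((((p : ℤ) - pts W (ZMod p) : ℤ) : ℝ) / p) • (frob ρ p).map (Int.cast : ℤ → ℝ)).det

end lattice

/-- The contragredient: `A ↦ (A⁻¹)ᵀ`.  It gives the action on the dual lattice `M^∨`. -/
noncomputable def contra (g : ℕ) : GL (Fin g) ℤ →* GL (Fin g) ℤ where
  toFun A := ⟨((A⁻¹ : GL (Fin g) ℤ) : Matrix (Fin g) (Fin g) ℤ).transpose,
    ((A : GL (Fin g) ℤ) : Matrix (Fin g) (Fin g) ℤ).transpose, by
      rw [← Matrix.transpose_mul, ← Units.val_mul, mul_inv_cancel, Units.val_one,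
        Matrix.transpose_one], by
      rw [← Matrix.transpose_mul, ← Units.val_mul, inv_mul_cancel, Units.val_one,
        Matrix.transpose_one]⟩
  map_one' := by
    apply Units.ext
    show ((1⁻¹ : GL (Fin g) ℤ) : Matrix (Fin g) (Fin g) ℤ).transpose = 1
    rw [inv_one, Units.val_one, Matrix.transpose_one]
  map_mul' A B := by
    apply Units.ext
    show (((A * B)⁻¹ : GL (Fin g) ℤ) : Matrix (Fin g) (Fin g) ℤ).transpose =
      ((A⁻¹ : GL (Fin g) ℤ) : Matrix (Fin g) (Fin g) ℤ).transpose *
        ((B⁻¹ : GL (Fin g) ℤ) : Matrix (Fin g) (Fin g) ℤ).transpose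
    rw [mul_inv_rev, Units.val_mul, Matrix.transpose_mul]

/-- **The 2-part of the Birch and Swinnerton-Dyer conjecture** for `A = E ⊗ M` over `ℚ`, where `K` is
totally real and `M^G = 0`: the groups of the rational points of `A` and of its dual are finite of odd
order; the 2-primary part of the Tate-Shafarevich group is zero; the `L`-function (the Euler product over
the primes that do not divide `m Δ`) is entire and its order at `s = 1` is the rank `0`; and
`L(A, 1) = r realPeriod^g ∏_{p ∣ Δ} #𝒜⁰(𝔽_p) / p^g`, where `r` is a rational number and a unit at 2.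
Here `κ` is the cyclotomic character, and `ρ ∘ κ` the action of the Galois group of `ℚ` on `M`. -/
structure TwoPart (W : WeierstrassCurve ℤ) {m g : ℕ} (ρ : (ZMod m)ˣ →* GL (Fin g) ℤ)
    (κ : Gal ℚ →* (ZMod m)ˣ) : Prop where
  points : Finite (ptsA W (ρ.comp κ)) ∧ Odd (Nat.card (ptsA W (ρ.comp κ)))
  dual : Finite (ptsA W (((contra g).comp ρ).comp κ)) ∧
    Odd (Nat.card (ptsA W (((contra g).comp ρ).comp κ)))
  sha : ∀ f, IsShaCocycle W (ρ.comp κ) f → ∀ k : ℕ, IsCoboundary W (ρ.comp κ) (2 ^ k • f) →
    IsCoboundary W (ρ.comp κ) f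
  formula : ∃ L : ℂ → ℂ, Differentiable ℂ L ∧
    (∀ s : ℂ, 3 / 2 < s.re → HasProd (fun p : Nat.Primes =>
      if ((p : ℕ) : ℤ) ∣ m * W.Δ then 1 else (P ρ W p (((p : ℕ) : ℂ) ^ (-s)))⁻¹) (L s)) ∧
    analyticOrderAt L 1 = 0 ∧
    ∃ r : ℚ, L 1 = r * (realPeriod W ^ g * ∏ p ∈ W.Δ.natAbs.primeFactors, bad ρ W p) ∧
      r ≠ 0 ∧ padicValRat 2 r = 0

/-- **Main theorem.** Let `q` be a power of a prime, prime to `14`, and let `K` be a subfield of odd
degree of the `q`-th cyclotomic field `F`.  Suppose that `q` is a power of three (then `K` is a layer of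
the cyclotomic `ℤ₃`-extension of `ℚ`), or that `2` and `7` are inert in `K` and the narrow class number of
`K` is odd.  Let `D = 1` modulo `4` be squarefree, positive or negative, such that the prime divisors of
`D` do not divide `14 q` and are inert in `K`.  Let `ρ` be an action of `(ℤ/q)ˣ = Gal(F/ℚ)` on `M = ℤ^g`
which is trivial on `Gal(F/K)` and has no fixed vectors except zero.  Then the 2-part of the Birch and
Swinnerton-Dyer conjecture holds for the abelian variety `A = E_D ⊗ M`, `A(ℚ)` and `A'(ℚ)` are finite of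
odd order and `Ш(A)[2^∞] = 0`. -/
theorem result (q : ℕ) [NeZero q] (hq : IsPrimePow q) (hco : q.Coprime 14)
    (F : Type) [Field F] [NumberField F] [IsCyclotomicExtension {q} ℚ F]
    (K : IntermediateField ℚ F) (hodd : Odd (Module.finrank ℚ K))
    (hcl : 3 ∣ q ∨ ((Ideal.span {((2 : ℕ) : 𝓞 K)}).IsPrime ∧
      (Ideal.span {((7 : ℕ) : 𝓞 K)}).IsPrime ∧ Odd (Nat.card (NCl K))))
    (D : ℤ) (hD : Squarefree D) (hD4 : D % 4 = 1)
    (hDp : ∀ p : ℕ, p.Prime → (p : ℤ) ∣ D → ¬ p ∣ 14 * q ∧ (Ideal.span {((p : ℕ) : 𝓞 K)}).IsPrime)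
    (g : ℕ) (ρ : (ZMod q)ˣ →* GL (Fin g) ℤ)
    (hρ : ∀ u : (ZMod q)ˣ, (∀ σ : F ≃ₐ[ℚ] F, (∀ ζ : F, ζ ^ q = 1 → σ ζ = ζ ^ ((u : ZMod q)).val) →
      ∀ x ∈ K, σ x = x) → ρ u = 1)
    (hfix : ∀ v : Fin g → ℤ, (∀ u, (ρ u : Matrix (Fin g) (Fin g) ℤ).mulVec v = v) → v = 0)
    (κ : Gal ℚ →* (ZMod q)ˣ)
    (hκ : ∀ (σ : Gal ℚ) (ζ : AlgebraicClosure ℚ), ζ ^ q = 1 → σ ζ = ζ ^ ((κ σ : ZMod q)).val) :
    TwoPart (twist D) ρ κ := by
  have hρ' : ∀ u ∈ Pool.Agent.Y682.XT.HH q F K, ρ u = 1 := by
    intro u hu
    rw [Pool.Agent.Y682.XT.mem_HH] at hu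
    apply hρ
    intro σ hσ x hx
    have hz := IsCyclotomicExtension.zeta_spec q ℚ F
    have h1 : IsCyclotomicExtension.Rat.galEquivZMod q F σ = u := by
      have h3 := IsCyclotomicExtension.Rat.galEquivZMod_apply_of_pow_eq q F σ hz.pow_eq_one
      have h4 := hσ _ hz.pow_eq_one
      rw [h3] at h4
      exact Units.ext (ZMod.val_injective q (hz.pow_inj (ZMod.val_lt _) (ZMod.val_lt _) h4))
    rw [← h1, MulEquiv.symm_apply_apply, IntermediateField.mem_fixingSubgroup_iff] at hu
    exact hu x hx
  obtain ⟨a1, a2, a3, H, b1, b2, b3, r, b4, b5, b6⟩ := Pool.Agent.X218.OT.final q hq hco F K hodd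
    hcl D hD hD4 hDp ρ hρ' hfix κ hκ
  refine ⟨a1, a2, fun f hf k hk => ?_, H, b1, b2, b3, r, ?_, b4, b5⟩
  · have hf' : Pool.Agent.Y702.A.IsShaCocA (Pool.Agent.Y700.WM D) (ρ.comp κ) f := hf
    have hk' : Pool.Agent.Y702.A.IsCobA (Pool.Agent.Y700.WM D) (ρ.comp κ) (2 ^ k • f) := hk
    have h1 := a3 (QuotientAddGroup.mk (⟨f, hf'⟩ :
      Pool.Agent.Y702.A.shaCocA (Pool.Agent.Y700.WM D) (ρ.comp κ))) k (by
        rw [← QuotientAddGroup.mk_nsmul, QuotientAddGroup.eq_zero_iff]
        exact hk')
    rw [QuotientAddGroup.eq_zero_iff] at h1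
    exact h1
  · rw [b6]
    push_cast
    rfl

end Pool.Agent.Results.MP_dfae13_nt.AllTwistsTensorOdd
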