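import Pool.Agent.TH942.ES.StarExt
import Pool.Agent.TH942.ES.NF

/-!
# The leading-term formula for abelian varieties and the convergence of finite sums

`A` is an abelian variety of dimension `g` over a number field `K` (`K = ℚ` in the question) with good
reduction at the primes in `T`; `P_v(X) = det (1 - X Frob_v | H¹(A)) ∈ ℤ[X]`, a polynomial of degree
`d = 2 g` with constant term `1` whose complex roots have the absolute value `q_v^(-1/2)` (Weil).  We use
nothing else: all the statements hold for every family of such polynomials (`IsWeil`).  The incomplete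
`L`-series is the product of the `P_v(q_v^(-s))⁻¹`, `v ∈ T`, for `Re s > 3/2`.

For `g > 1` the continuation of `L(A, s)` is not known in general, so that the leading value at `s = 1`
is not even defined.  Here NOTHING is assumed about the continuation.  For `ρ > 1`, `ρ' > ρ` let

`S_{ρ,ρ'}(Y) = ∑ w_{1/ρ}(k log q_v / log Y) p_k(v) / (k q_v^k)`,

the FINITE sum over the pairs `(v, k)`, `v ∈ T`, `k ≥ 1`, with `q_v^k ≤ exp((log Y)^ρ')`; here `p_k(v)` is
the sum of the `k`-th powers of the inverses of the roots of `P_v` (the trace of `Frob_v^k` on `H¹(A)`)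
and `w_α` is the Mittag-Leffler weight `w_α(u) = (2π)⁻¹ ∫ Re (exp(z - u z^α) / z) dt`, `z = 1 + i t`.

Theorem.  Let `r ≥ 0` be an integer (the rank of `A(K)`), `C > 0` a real number (the right side
`#Ш R V_∞ V_bad / (#A(K)_tors #A'(K)_tors)` of the formula of Birch and Swinnerton-Dyer) and `ρ₀ ≥ 1`.
Then `S_{ρ,ρ'}(Y) + r log log Y → log C - r γ / ρ` as `Y → ∞` for all `ρ' > ρ > ρ₀` if and only if the
`L`-series has a continuation `G` which is holomorphic and without zeros in the union of the half plane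
`Re s > 3/2` and the sector `|arg (s - 1)| < π / (2 ρ₀)`, and `G(s) ∼ C (s - 1)^r` as `s → 1` in every
smaller sector.  In particular, for a continuation `F` of `L(A, s)` to `Re s > 1` and to a neighbourhood
of `s = 1`, the limits for all `ρ' > ρ > 1` hold if and only if `F` has no zeros with `Re s > 1`, has
the order `r` at `s = 1` and the leading value `C`: the formula of Birch and Swinnerton-Dyer, together with
the Riemann hypothesis for `L(A, s)`, is the statement that explicit finite sums converge to an explicit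
limit.

For elliptic curves over `ℚ` such criteria for the order, with a sharp cut-off, are due to Goldfeld (1982),
Kuo and Murty, and Conrad (2005).
-/

set_option autoImplicit false

open IsDedekindDomain NumberField Filter Topology

namespace Pool.Agent.Results.MP_dfae13_nt.FormulaFromFiniteSums

variable {K : Type} [Field K] [NumberField K]

/-- `q_v`, the number of elements of the residue field. -/
noncomputable def q (v : HeightOneSpectrum (𝓞 K)) : ℕ := Ideal.absNorm v.asIdeal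

/-- The properties of the polynomials `P_v = det (1 - X Frob_v | H¹(A))` for an abelian variety `A` with
good reduction at the primes in `T`, `d = 2 dim A`: integral coefficients, degree `d`, constant term `1`,
and the complex roots have the absolute value `q_v^(-1/2)`. -/
structure IsWeil (T : Set (HeightOneSpectrum (𝓞 K))) (d : ℕ)
    (P : HeightOneSpectrum (𝓞 K) → Polynomial ℤ) : Prop where
  degree : ∀ v ∈ T, (P v).natDegree = d
  one : ∀ v ∈ T, (P v).coeff 0 = 1
  weil : ∀ v ∈ T, ∀ z : ℂ, Polynomial.aeval z (P v) = 0 → ‖z‖ ^ 2 * q v = 1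

/-- `p_k(v)`, the sum of the `k`-th powers of the inverses of the complex roots of `P_v`, counted with
multiplicity. -/
noncomputable def powerSum (P : HeightOneSpectrum (𝓞 K) → Polynomial ℤ) (v : HeightOneSpectrum (𝓞 K))
    (k : ℕ) : ℝ := (((P v).aroots ℂ).map fun z => z⁻¹ ^ k).sum.re

/-- The Mittag-Leffler weight `w_α(u) = (2π)⁻¹ ∫ Re (exp (z - u z^α) / z) dt`, `z = 1 + it`. -/
noncomputable def weight (α u : ℝ) : ℝ :=
  (2 * Real.pi)⁻¹ * ∫ t : ℝ, (Complex.exp ((1 + t * Complex.I) -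
    u * (1 + t * Complex.I) ^ (α : ℂ)) / (1 + t * Complex.I)).re

/-- The pairs `(v, k)`, `v ∈ T` and `k = x.2 + 1`, with `q_v ^ k ≤ exp((log Y)^ρ')`. -/
def pairs (T : Set (HeightOneSpectrum (𝓞 K))) (ρ' Y : ℝ) : Set (T × ℕ) :=
  {x | (q x.1.1 : ℝ) ^ (x.2 + 1) ≤ Real.exp (Real.log Y ^ ρ')}

/-- `S_{ρ,ρ'}(Y)`, the sum over the finite set `pairs`, with `k = x.2 + 1`. -/
noncomputable def S (T : Set (HeightOneSpectrum (𝓞 K))) (P : HeightOneSpectrum (𝓞 K) → Polynomial ℤ)
    (ρ ρ' Y : ℝ) : ℝ :=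
  ∑ᶠ x ∈ pairs T ρ' Y, weight ρ⁻¹ (((x.2 : ℝ) + 1) * Real.log (q x.1.1) / Real.log Y) *
    (powerSum P x.1.1 (x.2 + 1) / (((x.2 : ℝ) + 1) * (q x.1.1 : ℝ) ^ (x.2 + 1)))

/-- `s` lies in the sector `|arg (s - 1)| < π / (2ρ)`, `s ≠ 1`; the half plane `Re s > 1` for `ρ = 1`. -/
def InSector (ρ : ℝ) (s : ℂ) : Prop := s ≠ 1 ∧ |Complex.arg (s - 1)| < Real.pi / (2 * ρ)

/-- `G` is the incomplete `L`-series `∏_{v ∈ T} P_v(q_v^(-s))⁻¹` for `Re s > 3/2`. -/
def IsLSeries (T : Set (HeightOneSpectrum (𝓞 K))) (P : HeightOneSpectrum (𝓞 K) → Polynomial ℤ)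
    (G : ℂ → ℂ) : Prop :=
  ∀ s : ℂ, 3 / 2 < s.re → HasProd (fun v : T =>
    (Polynomial.aeval ((q v.1 : ℂ) ^ (-s)) (P v.1))⁻¹) (G s)

/-! ### Translation to the imported files -/

section aux

open Pool.Agent.TH942.ES Pool.Agent.TH942.SL
open Pool.Agent.H921R2.TatePole (nm two_le_nm)

variable {T : Set (HeightOneSpectrum (𝓞 K))} {d : ℕ} {P : HeightOneSpectrum (𝓞 K) → Polynomial ℤ}

/-- the norms -/
noncomputable abbrev NN (T : Set (HeightOneSpectrum (𝓞 K))) : T → ℕ := fun v => nm v.1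

/-- a multiset as a function -/
theorem exists_enum {A : Type} (s : Multiset A) {d : ℕ} (h : Multiset.card s = d) :
    ∃ f : Fin d → A, (Finset.univ : Finset (Fin d)).val.map f = s := by
  subst h
  induction s using Quotient.inductionOn with
  | h l =>
    refine ⟨fun i => l.get i, ?_⟩
    show ((Finset.univ : Finset (Fin l.length)).val.map fun i => l.get i) = (l : Multiset A)
    rw [Fin.univ_val_map, List.ofFn_get]

/-- the roots -/
theorem exists_roots (hP : IsWeil T d P) (v : T) : ∃ f : Fin d → ℂ,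
    (Finset.univ : Finset (Fin d)).val.map f = (P v.1).aroots ℂ ∧
    (∀ i, f i ≠ 0 ∧ ‖f i‖ ^ 2 * q v.1 = 1) ∧
    (∀ x : ℂ, Polynomial.aeval x (P v.1) = ∏ i, (1 - (f i)⁻¹ * x)) := by
  have hP0 : P v.1 ≠ 0 := by
    intro h
    have := hP.one v.1 v.2
    rw [h, Polynomial.coeff_zero] at this
    exact zero_ne_one this
  set Q : Polynomial ℂ := (P v.1).map (algebraMap ℤ ℂ) with hQ
  have hinj : Function.Injective (algebraMap ℤ ℂ) := by
    have : (algebraMap ℤ ℂ : ℤ → ℂ) = Int.cast := by ext; simp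
    rw [this]
    exact Int.cast_injective
  have hQ0 : Q ≠ 0 := (Polynomial.map_ne_zero_iff hinj).2 hP0
  have hdeg : Q.natDegree = d := by
    rw [hQ, Polynomial.natDegree_map_eq_of_injective hinj, hP.degree v.1 v.2]
  have hsplit : Q.Splits := IsAlgClosed.splits Q
  have hcard : Multiset.card Q.roots = d := by
    rw [← hdeg]
    exact hsplit.natDegree_eq_card_roots.symm
  obtain ⟨f, hf⟩ := exists_enum Q.roots hcard
  have hroot : ∀ i, Polynomial.aeval (f i) (P v.1) = 0 := by
    intro i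
    have h1 : f i ∈ Q.roots := by
      rw [← hf]
      exact Multiset.mem_map_of_mem f (Finset.mem_univ i)
    have h2 := (Polynomial.mem_roots hQ0).1 h1
    rw [Polynomial.IsRoot, hQ, Polynomial.eval_map_algebraMap] at h2
    exact h2
  have hne : ∀ i, f i ≠ 0 := by
    intro i h
    have h1 := hroot i
    rw [h, Polynomial.aeval_def, Polynomial.eval₂_at_zero, hP.one v.1 v.2, map_one] at h1
    exact one_ne_zero h1
  refine ⟨f, hf, fun i => ⟨hne i, hP.weil v.1 v.2 _ (hroot i)⟩, ?_⟩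
  -- the factorisation
  have hprod : ∀ x : ℂ, Q.eval x = Q.leadingCoeff * ∏ i, (x - f i) := by
    intro x
    have h1 := hsplit.eq_prod_roots
    conv_lhs => rw [h1]
    rw [Polynomial.eval_mul, Polynomial.eval_C, ← hf]
    congr 1
    rw [Polynomial.eval_multiset_prod, Multiset.map_map, Multiset.map_map]
    show (Multiset.map (fun i => Polynomial.eval x (Polynomial.X - Polynomial.C (f i)))
      (Finset.univ : Finset (Fin d)).val).prod = _
    simp only [Polynomial.eval_sub, Polynomial.eval_X, Polynomial.eval_C]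
    rfl
  have h0 : Q.leadingCoeff * ∏ i, (0 - f i) = 1 := by
    rw [← hprod, hQ, Polynomial.eval_map_algebraMap, Polynomial.aeval_def, Polynomial.eval₂_at_zero,
      hP.one v.1 v.2, map_one]
  intro x
  have h1 : Polynomial.aeval x (P v.1) = Q.eval x := by
    rw [hQ, Polynomial.eval_map_algebraMap]
  have h2 : ∏ i, (x - f i) = (∏ i, (0 - f i)) * ∏ i, (1 - (f i)⁻¹ * x) := by
    rw [← Finset.prod_mul_distrib]
    refine Finset.prod_congr rfl fun i _ => ?_
    have := hne i
    field_simp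
    ring
  rw [h1, hprod, h2, ← mul_assoc, h0, one_mul]

/-- the local roots -/
noncomputable def rts (hP : IsWeil T d P) (v : T) : Fin d → ℂ := (exists_roots hP v).choose

theorem rts_spec (hP : IsWeil T d P) (v : T) :
    (Finset.univ : Finset (Fin d)).val.map (rts hP v) = (P v.1).aroots ℂ ∧
    (∀ i, rts hP v i ≠ 0 ∧ ‖rts hP v i‖ ^ 2 * q v.1 = 1) ∧
    (∀ x : ℂ, Polynomial.aeval x (P v.1) = ∏ i, (1 - (rts hP v i)⁻¹ * x)) :=
  (exists_roots hP v).choose_spec

/-- the normalised local roots -/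
noncomputable def al (hP : IsWeil T d P) (v : T) (i : Fin d) : ℂ :=
  (rts hP v i)⁻¹ / ((√(nm v.1 : ℝ) : ℝ) : ℂ)

theorem nm_pos (v : HeightOneSpectrum (𝓞 K)) : (0 : ℝ) < nm v := by
  have hp2 : (2 : ℝ) ≤ nm v := by exact_mod_cast two_le_nm v
  linarith

theorem sq_nm (v : HeightOneSpectrum (𝓞 K)) : ((√(nm v : ℝ) : ℝ) : ℂ) ^ 2 = nm v := by
  rw [← Complex.ofReal_pow, Real.sq_sqrt (nm_pos v).le]
  push_cast
  rfl

theorem zv_al (hP : IsWeil T d P) (v : T) (i : Fin d) :
    zv (NN T) (al hP) v i = (rts hP v i)⁻¹ / (nm v.1 : ℂ) := by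
  unfold zv al
  rw [div_div, ← sq, sq_nm]

theorem norm_al (hP : IsWeil T d P) (v : T) (i : Fin d) : ‖al hP v i‖ ≤ 1 := by
  obtain ⟨-, h1, -⟩ := rts_spec hP v
  obtain ⟨h2, h3⟩ := h1 i
  have h0 := nm_pos v.1
  have h4 : ‖rts hP v i‖ * √(nm v.1 : ℝ) = 1 := by
    have h5 : (‖rts hP v i‖ * √(nm v.1 : ℝ)) ^ 2 = 1 := by
      rw [mul_pow, Real.sq_sqrt h0.le]
      exact h3
    have h6 : 0 ≤ ‖rts hP v i‖ * √(nm v.1 : ℝ) := by positivity
    nlinarith
  unfold al
  rw [norm_div, norm_inv, Complex.norm_real, Real.norm_eq_abs, abs_of_nonneg (Real.sqrt_nonneg _),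
    div_eq_mul_inv, ← mul_inv, h4, inv_one]

/-- the roots are stable under the complex conjugation -/
theorem conj_roots (hP : IsWeil T d P) (v : T) (F : ℂ → ℂ) :
    ∑ i, F ((starRingEnd ℂ) (rts hP v i)) = ∑ i, F (rts hP v i) := by
  obtain ⟨h1, -, -⟩ := rts_spec hP v
  have h2 : ((P v.1).aroots ℂ).map (starRingEnd ℂ) = (P v.1).aroots ℂ := by
    unfold Polynomial.aroots
    set Q : Polynomial ℂ := (P v.1).map (algebraMap ℤ ℂ) with hQ
    have h3 : Q.map (starRingEnd ℂ) = Q := by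
      rw [hQ, Polynomial.map_map]
      congr 1
      exact RingHom.ext_int _ _
    have h4 : (Q.map (starRingEnd ℂ)).roots = Q.roots.map (starRingEnd ℂ) :=
      Polynomial.Splits.roots_map (IsAlgClosed.splits Q) _
    rw [← h4, h3]
  have h3 : ∀ F : ℂ → ℂ, ∑ i, F (rts hP v i) = (((P v.1).aroots ℂ).map F).sum := by
    intro F
    rw [← h1, Multiset.map_map]
    rfl
  rw [h3 F, ← h2, Multiset.map_map, ← h1, Multiset.map_map]
  rfl

theorem norm_z_lt (hP : IsWeil T d P) (v : T) (i : Fin d) :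
    ‖(rts hP v i)⁻¹ / (nm v.1 : ℂ)‖ < 1 := by
  have h1 := norm_al hP v i
  have h0 := nm_pos v.1
  have hp2 : (2 : ℝ) ≤ nm v.1 := by exact_mod_cast two_le_nm v.1
  rw [← zv_al, zv, norm_div, Complex.norm_real, Real.norm_eq_abs, abs_of_nonneg (Real.sqrt_nonneg _),
    div_lt_one (Real.sqrt_pos.2 h0)]
  refine lt_of_le_of_lt h1 ?_
  rw [Real.lt_sqrt (by norm_num)]
  linarith

theorem sys (hP : IsWeil T d P) : Sys (NN T) (al hP) := by
  refine nf_sys (fun v => v ∈ T) (al hP) (norm_al hP) fun v => ?_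
  have h1 : ∀ i, 1 - al hP v i / ((√((nm v.1 : ℕ) : ℝ) : ℝ) : ℂ) =
      1 - (rts hP v i)⁻¹ / (nm v.1 : ℂ) := fun i => by rw [← zv_al]; rfl
  simp_rw [h1]
  rw [← Complex.conj_eq_iff_im, map_sum]
  have h2 : ∀ i, (starRingEnd ℂ) (Complex.log (1 - (rts hP v i)⁻¹ / (nm v.1 : ℂ))) =
      Complex.log (1 - ((starRingEnd ℂ) (rts hP v i))⁻¹ / (nm v.1 : ℂ)) := by
    intro i
    rw [← Complex.log_conj]
    · congr 1
      rw [map_sub, map_one, map_div₀, map_inv₀, Complex.conj_natCast]
    · have h3 := norm_z_lt hP v i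
      have h4 : 0 < (1 - (rts hP v i)⁻¹ / (nm v.1 : ℂ)).re := by
        rw [Complex.sub_re, Complex.one_re]
        have := (Complex.abs_re_le_norm ((rts hP v i)⁻¹ / (nm v.1 : ℂ)))
        have := le_abs_self ((rts hP v i)⁻¹ / (nm v.1 : ℂ)).re
        linarith
      exact fun h => absurd h4 (by
        have h5 := Complex.arg_eq_pi_iff.1 h
        linarith [h5.1])
  simp_rw [h2]
  exact conj_roots hP v (fun z => Complex.log (1 - z⁻¹ / (nm v.1 : ℂ)))

theorem pow_eq (hP : IsWeil T d P) (v : T) (n : ℕ) :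
    ∑ i, zv (NN T) (al hP) v i ^ n = ((powerSum P v.1 n / (q v.1 : ℝ) ^ n : ℝ) : ℂ) := by
  have h1 : ∀ i, zv (NN T) (al hP) v i ^ n = (rts hP v i)⁻¹ ^ n / (nm v.1 : ℂ) ^ n := fun i => by
    rw [zv_al, div_pow]
  rw [Finset.sum_congr rfl fun i _ => h1 i, ← Finset.sum_div]
  obtain ⟨h2, -, -⟩ := rts_spec hP v
  have h3 : ∑ i, (rts hP v i)⁻¹ ^ n = (((P v.1).aroots ℂ).map fun z => z⁻¹ ^ n).sum := by
    rw [← h2, Multiset.map_map]
    rfl
  have h4 : (starRingEnd ℂ) (∑ i, (rts hP v i)⁻¹ ^ n) = ∑ i, (rts hP v i)⁻¹ ^ n := by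
    rw [map_sum, ← conj_roots hP v (fun z => z⁻¹ ^ n)]
    refine Finset.sum_congr rfl fun i _ => ?_
    rw [map_pow, map_inv₀]
  have h5 : ((powerSum P v.1 n : ℝ) : ℂ) = ∑ i, (rts hP v i)⁻¹ ^ n := by
    unfold powerSum
    rw [← h3]
    exact Complex.conj_eq_iff_re.1 h4
  rw [← h5]
  push_cast
  rfl

theorem hreal (hP : IsWeil T d P) (v : T) (k : ℕ) : (∑ i, zv (NN T) (al hP) v i ^ k).im = 0 := by
  rw [pow_eq, Complex.ofReal_im]

theorem S_eq (hP : IsWeil T d P) (ρ ρ' Y : ℝ) : S T P ρ ρ' Y = StE (NN T) (al hP) ρ ρ' Y := by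
  unfold S StE
  refine finsum_congr fun x => ?_
  refine finsum_congr_Prop rfl fun _ => ?_
  have e1 : weight = wml := rfl
  rw [e1]
  congr 1
  unfold cP
  rw [pow_eq, Complex.ofReal_re]
  have hq : (q x.1.1 : ℝ) ≠ 0 := (nm_pos x.1.1).ne'
  field_simp

/-- the local factor -/
theorem factor_eq (hP : IsWeil T d P) (v : T) (s : ℂ) :
    ∏ i, (1 - zv (NN T) (al hP) v i * xv (NN T) v s)⁻¹ =
      (Polynomial.aeval ((q v.1 : ℂ) ^ (-(1 + s))) (P v.1))⁻¹ := by
  obtain ⟨-, -, h1⟩ := rts_spec hP v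
  rw [h1, ← Finset.prod_inv_distrib]
  refine Finset.prod_congr rfl fun i _ => ?_
  have h0 := nm_pos v.1
  have hnc : (nm v.1 : ℂ) ≠ 0 := by exact_mod_cast h0.ne'
  have e1 : (q v.1 : ℂ) ^ (-(1 + s)) = xv (NN T) v s / nm v.1 := by
    have e0 : (q v.1 : ℂ) = (nm v.1 : ℂ) := rfl
    have e2 : (nm v.1 : ℂ) ^ (-(1 + s)) = (nm v.1 : ℂ) ^ (-s) * (nm v.1 : ℂ) ^ (-(1 : ℂ)) := by
      rw [← Complex.cpow_add _ _ hnc]
      congr 1
      ring
    rw [e0, e2, Complex.cpow_neg_one, div_eq_mul_inv]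
    congr 1
    rw [Complex.cpow_def_of_ne_zero hnc, ← Complex.ofReal_natCast, ← Complex.ofReal_log h0.le]
    unfold xv
    congr 1
    ring
  rw [e1, zv_al]
  congr 2
  ring

theorem hasProd_iff (hP : IsWeil T d P) (s : ℂ) (G : ℂ) :
    HasProd (fun v : T => (Polynomial.aeval ((q v.1 : ℂ) ^ (-(1 + s))) (P v.1))⁻¹) G ↔
    HasProd (fun v => ∏ i, (1 - zv (NN T) (al hP) v i * xv (NN T) v s)⁻¹) G := by
  have h : (fun v : T => (Polynomial.aeval ((q v.1 : ℂ) ^ (-(1 + s))) (P v.1))⁻¹) =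
      (fun v => ∏ i, (1 - zv (NN T) (al hP) v i * xv (NN T) v s)⁻¹) :=
    funext fun v => (factor_eq hP v s).symm
  rw [h]

theorem lseries_iff (hP : IsWeil T d P) (G : ℂ → ℂ) : IsLSeries T P G ↔
    ∀ s : ℂ, 1 / 2 < s.re → G (1 + s) = LE (NN T) (al hP) s := by
  have E : Sys (NN T) (al hP) := sys hP
  constructor
  · intro h s hs
    have h1 := h (1 + s) (by rw [Complex.add_re, Complex.one_re]; linarith)
    rw [hasProd_iff hP] at h1
    rw [E.LE_eq hs]
    exact h1.unique (E.hasProd hs)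
  · intro h s hs
    have h1 : 1 / 2 < (s - 1).re := by rw [Complex.sub_re, Complex.one_re]; linarith
    have h2 := h (s - 1) h1
    have h3 := (hasProd_iff hP (s - 1) (G s)).2
    have e1 : 1 + (s - 1) = s := by ring
    rw [e1] at h2 h3
    rw [h2] at h3 ⊢
    rw [E.LE_eq h1] at h3 ⊢
    exact h3 (E.hasProd h1)

theorem inSector_iff (ρ : ℝ) (s : ℂ) : InSector ρ (1 + s) ↔ s ∈ Sect ρ := by
  unfold InSector Sect
  have e1 : 1 + s - 1 = s := by ring
  rw [e1, Set.mem_ofPred_eq]
  have e2 : 1 + s ≠ 1 ↔ s ≠ 0 := by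
    constructor
    · intro h h1
      exact h (by rw [h1, add_zero])
    · intro h h1
      exact h (by linear_combination h1)
  rw [e2]

/-- the map `s ↦ 1 + s` -/
theorem tendsto_iff (ρ : ℝ) (f : ℂ → ℂ) (l : ℂ) :
    Tendsto (fun s => f (s - 1)) (𝓝[{s | InSector ρ s}] 1) (𝓝 l) ↔
      Tendsto f (𝓝[Sect ρ] 0) (𝓝 l) := by
  have h1 : Tendsto (fun s : ℂ => 1 + s) (𝓝[Sect ρ] 0) (𝓝[{s | InSector ρ s}] 1) := by
    refine tendsto_nhdsWithin_iff.2 ⟨?_, ?_⟩
    · have : Tendsto (fun s : ℂ => 1 + s) (𝓝 0) (𝓝 (1 + 0)) := (continuous_const.add continuous_id).tendsto 0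
      rw [add_zero] at this
      exact this.mono_left nhdsWithin_le_nhds
    · filter_upwards [self_mem_nhdsWithin] with s hs
      exact (inSector_iff ρ s).2 hs
  have h2 : Tendsto (fun s : ℂ => s - 1) (𝓝[{s | InSector ρ s}] 1) (𝓝[Sect ρ] 0) := by
    refine tendsto_nhdsWithin_iff.2 ⟨?_, ?_⟩
    · have : Tendsto (fun s : ℂ => s - 1) (𝓝 1) (𝓝 (1 - 1)) := (continuous_id.sub continuous_const).tendsto 1
      rw [sub_self] at this
      exact this.mono_left nhdsWithin_le_nhds
    · filter_upwards [self_mem_nhdsWithin] with s hs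
      rw [← inSector_iff]
      have e1 : 1 + (s - 1) = s := by ring
      rw [e1]
      exact hs
  constructor
  · intro h
    refine (h.comp h1).congr fun s => ?_
    simp only [Function.comp_apply, add_sub_cancel_left]
  · intro h
    exact h.comp h2

theorem part_one (hP : IsWeil T d P) (r : ℕ) (A : ℝ) (hA : 0 < A) (ρ₀ : ℝ) (h : 1 ≤ ρ₀) :
    (∀ ρ ρ' : ℝ, ρ₀ < ρ → ρ < ρ' →
      Tendsto (fun Y : ℝ => S T P ρ ρ' Y + r * Real.log (Real.log Y)) atTop
        (𝓝 (Real.log A - r * Real.eulerMascheroniConstant / ρ))) ↔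
      ∃ G : ℂ → ℂ, IsLSeries T P G ∧
        (∀ s : ℂ, InSector ρ₀ s ∨ 3 / 2 < s.re → DifferentiableAt ℂ G s ∧ G s ≠ 0) ∧
        ∀ ρ : ℝ, ρ₀ < ρ →
          Tendsto (fun s => G s / (s - 1) ^ r) (𝓝[{s | InSector ρ s}] 1) (𝓝 (A : ℂ)) := by
  have E : Sys (NN T) (al hP) := sys hP
  simp only [S_eq hP]
  rw [E.star_equiv (hreal hP) h r hA]
  constructor
  · rintro ⟨G, h1, h2, h3⟩
    refine ⟨fun s => G (s - 1), ?_, ?_, ?_⟩
    · rw [lseries_iff hP]
      intro s hs
      simp only [add_sub_cancel_left]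
      exact h2 s hs
    · intro s hs
      have h4 : s - 1 ∈ Sect ρ₀ ∨ 1 / 2 < (s - 1).re := by
        rcases hs with hs | hs
        · left
          rw [← inSector_iff]
          have e1 : 1 + (s - 1) = s := by ring
          rw [e1]
          exact hs
        · right
          rw [Complex.sub_re, Complex.one_re]
          linarith
      obtain ⟨h5, h6⟩ := h1 _ h4
      refine ⟨?_, h6⟩
      exact h5.comp s (differentiableAt_id.sub_const 1)
    · intro ρ hρ
      exact (tendsto_iff ρ (fun s => G s / s ^ r) A).2 (h3 ρ hρ)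
  · rintro ⟨G, h1, h2, h3⟩
    rw [lseries_iff hP] at h1
    refine ⟨fun s => G (1 + s), ?_, h1, ?_⟩
    · intro s hs
      have h4 : InSector ρ₀ (1 + s) ∨ 3 / 2 < (1 + s).re := by
        rcases hs with hs | hs
        · exact Or.inl ((inSector_iff _ _).2 hs)
        · right
          rw [Complex.add_re, Complex.one_re]
          linarith
      obtain ⟨h5, h6⟩ := h2 _ h4
      refine ⟨?_, h6⟩
      exact h5.comp s (differentiableAt_id.const_add 1)
    · intro ρ hρ
      rw [← tendsto_iff]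
      refine (h3 ρ hρ).congr fun s => ?_
      have e1 : 1 + (s - 1) = s := by ring
      simp only [e1]

theorem neBot (ρ : ℝ) (hρ : 0 < ρ) : (𝓝[{s | InSector ρ s}] (1 : ℂ)).NeBot := by
  have h1 : Tendsto (fun t : ℝ => 1 + (t : ℂ)) (𝓝[>] 0) (𝓝[{s | InSector ρ s}] 1) := by
    refine tendsto_nhdsWithin_iff.2 ⟨?_, ?_⟩
    · have : Tendsto (fun t : ℝ => 1 + (t : ℂ)) (𝓝 0) (𝓝 (1 + ((0 : ℝ) : ℂ))) :=
        (continuous_const.add Complex.continuous_ofReal).tendsto 0
      rw [Complex.ofReal_zero, add_zero] at this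
      exact this.mono_left nhdsWithin_le_nhds
    · filter_upwards [self_mem_nhdsWithin] with t ht
      have ht' : (0 : ℝ) < t := ht
      refine ⟨fun h => ?_, ?_⟩
      · have : (t : ℂ) = 0 := by linear_combination h
        have : t = 0 := by exact_mod_cast this
        linarith
      · rw [add_sub_cancel_left, Complex.arg_ofReal_of_nonneg ht'.le, abs_zero]
        have := Real.pi_pos
        positivity
  exact h1.neBot

theorem inSector_mono {ρ ρ' : ℝ} (hρ : 0 < ρ) (h : ρ ≤ ρ') {s : ℂ} (hs : InSector ρ' s) :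
    InSector ρ s := by
  refine ⟨hs.1, hs.2.trans_le ?_⟩
  have := Real.pi_pos
  gcongr

theorem inSector_one (s : ℂ) : InSector 1 s ↔ 1 < s.re := by
  have h := inSector_iff 1 (s - 1)
  have e1 : 1 + (s - 1) = s := by ring
  rw [e1, sect_one] at h
  rw [h, Set.mem_ofPred_eq, Complex.sub_re, Complex.one_re, sub_pos]

theorem nhds_le (ρ : ℝ) : 𝓝[{s | InSector ρ s}] (1 : ℂ) ≤ 𝓝[≠] 1 :=
  nhdsWithin_mono _ fun _ hs => hs.1

/-- order and leading coefficient from the limit in a sector -/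
theorem order_iff {F : ℂ → ℂ} (hF : MeromorphicAt F 1) (r : ℕ) {A : ℂ} (hA : A ≠ 0) {ρ : ℝ}
    (hρ : 0 < ρ) :
    Tendsto (fun s => F s / (s - 1) ^ r) (𝓝[{s | InSector ρ s}] 1) (𝓝 A) ↔
      meromorphicOrderAt F 1 = ((r : ℤ) : WithTop ℤ) ∧ meromorphicTrailingCoeffAt F 1 = A := by
  have := neBot ρ hρ
  have hle := nhds_le ρ
  set P : ℂ → ℂ := fun s => (s - 1) ^ r with hP
  have hPm : MeromorphicAt P 1 := by fun_prop
  have hgm : MeromorphicAt (fun s => F s / P s) 1 := hF.div hPm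
  have hgo : (fun s => F s / (s - 1) ^ r) = fun s => F s / P s := rfl
  have hlim : ∀ m : ℤ, meromorphicOrderAt F 1 = (m : WithTop ℤ) →
      Tendsto (fun s => (s - 1) ^ (-m) * F s) (𝓝[≠] 1) (𝓝 (meromorphicTrailingCoeffAt F 1)) := by
    intro m hm
    have h1 := hF.tendsto_nhds_meromorphicTrailingCoeffAt
    rw [hm] at h1
    refine h1.congr fun s => ?_
    simp
  constructor
  · intro h
    rcases lt_trichotomy (meromorphicOrderAt (fun s => F s / P s) 1) 0 with h0 | h0 | h0
    · exfalso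
      have h1 := (tendsto_cobounded_iff_meromorphicOrderAt_neg hgm).2 h0
      have h2 := h1.mono_left hle
      exact h.not_tendsto (Metric.disjoint_nhds_cobounded A) h2
    · have h1 : meromorphicOrderAt F 1 = ((r : ℤ) : WithTop ℤ) := by
        have e1 : F =ᶠ[𝓝[≠] 1] (fun s => F s / P s) * P := by
          filter_upwards [self_mem_nhdsWithin] with s hs
          have hs1 : s - 1 ≠ 0 := sub_ne_zero.2 hs
          simp only [Pi.mul_apply, hP]
          field_simp
        have e2 : meromorphicOrderAt P 1 = ((r : ℤ) : WithTop ℤ) := by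
          rw [meromorphicOrderAt_eq_int_iff hPm]
          refine ⟨fun _ => 1, analyticAt_const, one_ne_zero, ?_⟩
          filter_upwards with s
          simp [hP]
        rw [meromorphicOrderAt_congr e1, meromorphicOrderAt_mul hgm hPm, h0, e2, zero_add]
      refine ⟨h1, ?_⟩
      have h3 := (hlim r h1).mono_left hle
      refine tendsto_nhds_unique h3 (h.congr fun s => ?_)
      rw [zpow_neg, zpow_natCast]
      field_simp
    · exfalso
      have h1 := (tendsto_zero_iff_meromorphicOrderAt_pos hgm).2 h0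
      exact hA (tendsto_nhds_unique h (h1.mono_left hle))
  · rintro ⟨h1, h2⟩
    have h3 := (hlim r h1).mono_left hle
    rw [h2] at h3
    refine h3.congr fun s => ?_
    rw [zpow_neg, zpow_natCast]
    field_simp

/-- **Main theorem.** Let `P_v`, `v ∈ T`, be the Frobenius polynomials of an abelian variety over `K` with
good reduction at the primes in `T`, or any family with the properties `IsWeil`; `r ≥ 0` and `C > 0`.
(1) The sums are finite.
(2) For every `ρ₀ ≥ 1`: the limits `S_{ρ,ρ'}(Y) + r log log Y → log C - r γ / ρ` hold for all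
`ρ' > ρ > ρ₀` if and only if the `L`-series has a continuation without zeros to the sector with the leading
term `C (s - 1)^r` in all smaller sectors.
(3) If `F` is a continuation of the `L`-series to `Re s > 1` which is meromorphic at `s = 1`, then the
limits for all `ρ' > ρ > 1` hold if and only if `F` has no zeros in `Re s > 1`, its order at `s = 1` is `r`
and its leading coefficient is `C`. -/
theorem result (K : Type) [Field K] [NumberField K] (T : Set (HeightOneSpectrum (𝓞 K))) (d : ℕ)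
    (P : HeightOneSpectrum (𝓞 K) → Polynomial ℤ) (hP : IsWeil T d P) (r : ℕ) (C : ℝ) (hA : 0 < C) :
    (∀ ρ' Y : ℝ, (pairs T ρ' Y).Finite) ∧
    (∀ ρ₀ : ℝ, 1 ≤ ρ₀ →
      ((∀ ρ ρ' : ℝ, ρ₀ < ρ → ρ < ρ' →
        Tendsto (fun Y : ℝ => S T P ρ ρ' Y + r * Real.log (Real.log Y)) atTop
          (𝓝 (Real.log C - r * Real.eulerMascheroniConstant / ρ))) ↔
      ∃ G : ℂ → ℂ, IsLSeries T P G ∧
        (∀ s : ℂ, InSector ρ₀ s ∨ 3 / 2 < s.re → DifferentiableAt ℂ G s ∧ G s ≠ 0) ∧
        ∀ ρ : ℝ, ρ₀ < ρ →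
          Tendsto (fun s => G s / (s - 1) ^ r) (𝓝[{s | InSector ρ s}] 1) (𝓝 (C : ℂ)))) ∧
    ∀ F : ℂ → ℂ, IsLSeries T P F → (∀ s : ℂ, 1 < s.re → DifferentiableAt ℂ F s) →
      MeromorphicAt F 1 →
      ((∀ ρ ρ' : ℝ, 1 < ρ → ρ < ρ' →
        Tendsto (fun Y : ℝ => S T P ρ ρ' Y + r * Real.log (Real.log Y)) atTop
          (𝓝 (Real.log C - r * Real.eulerMascheroniConstant / ρ))) ↔
      (∀ s : ℂ, 1 < s.re → F s ≠ 0) ∧ meromorphicOrderAt F 1 = ((r : ℤ) : WithTop ℤ) ∧
        meromorphicTrailingCoeffAt F 1 = C) := by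
  have hA' : (C : ℂ) ≠ 0 := by exact_mod_cast hA.ne'
  refine ⟨fun ρ' Y => ?_, fun ρ₀ h => part_one hP r C hA ρ₀ h, fun F h1 h2 h3 => ?_⟩
  · exact (sys hP).finS _
  · rw [part_one hP r C hA 1 le_rfl]
    constructor
    · rintro ⟨G, g1, g2, g3⟩
      have hFG : ∀ s : ℂ, 1 < s.re → F s = G s := by
        have hU : IsOpen {s : ℂ | 1 < s.re} := isOpen_lt continuous_const Complex.continuous_re
        have a1 : AnalyticOnNhd ℂ F {s : ℂ | 1 < s.re} :=
          DifferentiableOn.analyticOnNhd (fun s hs => (h2 s hs).differentiableWithinAt) hU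
        have a2 : AnalyticOnNhd ℂ G {s : ℂ | 1 < s.re} :=
          DifferentiableOn.analyticOnNhd
            (fun s hs => (g2 s (Or.inl ((inSector_one s).2 hs))).1.differentiableWithinAt) hU
        have hV : IsOpen {s : ℂ | 3 / 2 < s.re} := isOpen_lt continuous_const Complex.continuous_re
        have h2' : (2 : ℂ) ∈ {s : ℂ | 1 < s.re} := by
          rw [Set.mem_ofPred_eq]
          norm_num
        have a3 := a1.eqOn_of_preconnected_of_eventuallyEq a2
          (convex_halfSpace_re_gt 1).isPreconnected h2' (by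
            filter_upwards [hV.mem_nhds (show (3 : ℝ) / 2 < (2 : ℂ).re by norm_num)] with z hz
            exact (h1 z hz).unique (g1 z hz))
        exact fun s hs => a3 hs
      refine ⟨fun s hs => ?_, ?_⟩
      · rw [hFG s hs]
        exact (g2 s (Or.inl ((inSector_one s).2 hs))).2
      · rw [← order_iff h3 r hA' (ρ := 2) (by norm_num)]
        refine (g3 2 (by norm_num)).congr' ?_
        filter_upwards [self_mem_nhdsWithin] with s hs
        rw [hFG s ((inSector_one s).1 (inSector_mono (by norm_num) (by norm_num) hs))]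
    · rintro ⟨g1, g2⟩
      refine ⟨F, h1, ?_, fun ρ hρ => ?_⟩
      · intro s hs
        have hs1 : 1 < s.re := by
          rcases hs with hs | hs
          · exact (inSector_one s).1 hs
          · linarith
        exact ⟨h2 s hs1, g1 s hs1⟩
      · exact (order_iff h3 r hA' (by linarith)).2 g2

end aux

end Pool.Agent.Results.MP_dfae13_nt.FormulaFromFiniteSums
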