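import Pool.Agent.X218.AV.Rot

/-!
# The leading-term formula for abelian varieties and rotated sums over the primes, without hypotheses on
# the zeros

`A` is an abelian variety of dimension `g` over a number field `K` (`K = ℚ` in the question), and
`P_v(X) = det (1 - X Frob_v | H¹(A)) ∈ ℤ[X]` at the primes of good reduction; at the other primes take
`P_v = 1` for the incomplete `L`-function of the question, or the polynomial on the invariants of the
inertia group for the complete one.  All that we use is `IsLocal`: the `P_v` are integral polynomials of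
degree at most `d = 2 g` with constant term `1`, and their roots have absolute values `≥ q_v^(-1/2)` (Weil).
The only further hypothesis is that the `L`-function, the product of the `P_v(q_v^(-s))⁻¹` for
`Re s > 3/2`, has a continuation `F` which is meromorphic at the points of the real segment `[1, 3/2]` (this
is a part of the question).  Nothing is assumed on the zeros and poles of `F`.

For `γ > π / 2` and `T > 0` put

`S_γ(T) = ∑_v ∑_{k ≥ 1} - p_k(v) q_v ^ (i k γ / T) / (k q_v ^ k Γ(1 + k log q_v / T))`,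

an absolutely convergent series, where `p_k(v)` is the sum of the `k`-th powers of the inverses of the
roots of `P_v`; so `exp S_γ(T)` is a smoothed and rotated form of the product of the
`P_v(q_v⁻¹) = #A(k_v) / q_v^g` over the primes with `q_v ≤ e^T`.

Theorem.  Let `m` be the order of `F` at `1` and `l` its leading coefficient.  Then `l` is real and

`S_γ(T) = m (log T - Λ_γ) - log |l| + π i e + O(1 / T)`,

where `e` is the number of the real zeros `> 1` minus the number of the real poles `> 1` of `F`, and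
`Λ_γ = ∫_0^∞ (e^{-t} - e^{iγt} / Γ(1 + t)) dt / t`.  Consequently, for every `γ > π / 2`:

* `F` has the order `r` at `1` if and only if `Re S_γ(T) / log T → r`;
* for all `r` and all real `B ≠ 0` (for instance `r` the rank of `A(K)` and `B` the number
  `#Ш R V_∞ V_bad / (#A(K)_tors #A'(K)_tors)` of the formula): `F` has the order `r` and the leading
  coefficient `B` at `1` if and only if `exp S_γ(T) / T ^ r → exp(- r Λ_γ) / B`.

For `γ = 0` and `B > 0` we show that the last limit is equivalent to the formula together with the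
non-existence of real zeros and poles `> 1`.  With a sharp cut-off such limits imply the Riemann
hypothesis (Goldfeld 1982, for elliptic curves over `ℚ`).  For elliptic curves the rotated sums are
treated in `MP_1a91b9_nt.RotatedFormulaEveryField`; here `A` has any dimension, and the continuation is
only used on the segment `[1, 3/2]`.
-/

set_option autoImplicit false

open IsDedekindDomain NumberField Filter Topology

namespace Pool.Agent.Results.MP_dfae13_nt.RotatedFormula

variable {K : Type} [Field K] [NumberField K]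

/-- `q_v`, the number of elements of the residue field. -/
noncomputable def q (v : HeightOneSpectrum (𝓞 K)) : ℝ := (Ideal.absNorm v.asIdeal : ℝ)

/-- The properties of the local polynomials of an abelian variety over `K`, `d = 2 dim A`. -/
structure IsLocal (d : ℕ) (P : HeightOneSpectrum (𝓞 K) → Polynomial ℤ) : Prop where
  degree : ∀ v, (P v).natDegree ≤ d
  one : ∀ v, (P v).coeff 0 = 1
  weil : ∀ v, ∀ z : ℂ, Polynomial.aeval z (P v) = 0 → 1 ≤ ‖z‖ ^ 2 * q v

/-- `F` is a continuation of the product of the `P_v(q_v^(-s))⁻¹`, `Re s > 3/2`, along the real axis to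
`s = 1`, which is meromorphic at every real point of `[1, 3/2]`. -/
def IsContinuation (P : HeightOneSpectrum (𝓞 K) → Polynomial ℤ) (F : ℂ → ℂ) : Prop :=
  (∀ x : ℝ, 1 ≤ x → x ≤ 3 / 2 → MeromorphicAt F (x : ℂ)) ∧
  ∀ s : ℂ, 3 / 2 < s.re → HasProd (fun v => (Polynomial.aeval ((q v : ℂ) ^ (-s)) (P v))⁻¹) (F s)

/-- `p_k(v)`, the sum of the `k`-th powers of the inverses of the complex roots of `P_v`, counted with
multiplicity. -/
noncomputable def powerSum (P : HeightOneSpectrum (𝓞 K) → Polynomial ℤ) (v : HeightOneSpectrum (𝓞 K))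
    (k : ℕ) : ℝ := (((P v).aroots ℂ).map fun z => z⁻¹ ^ k).sum.re

/-- The term of `v` and `k = x.2 + 1`: `- p_k(v) q_v ^ (i k γ / T) / (k q_v ^ k Γ(1 + k log q_v / T))`. -/
noncomputable def term (P : HeightOneSpectrum (𝓞 K) → Polynomial ℤ) (γ T : ℝ)
    (x : HeightOneSpectrum (𝓞 K) × ℕ) : ℂ :=
  -(powerSum P x.1 (x.2 + 1) : ℂ) *
    Complex.exp (γ * ((x.2 + 1) * Real.log (q x.1) / T) * Complex.I) /
      (((x.2 + 1) * q x.1 ^ (x.2 + 1) * Real.Gamma (1 + (x.2 + 1) * Real.log (q x.1) / T) : ℝ) : ℂ)

/-- `S_γ(T)` -/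
noncomputable def S (P : HeightOneSpectrum (𝓞 K) → Polynomial ℤ) (γ T : ℝ) : ℂ := ∑' x, term P γ T x

/-- `Λ_γ = ∫_0^∞ (e^{-t} - e^{iγt} / Γ(1 + t)) dt / t` -/
noncomputable def Lambda (γ : ℝ) : ℂ := ∫ t in Set.Ioi (0 : ℝ),
  (Complex.exp (-(t : ℂ)) - Complex.exp ((γ * t : ℝ) * Complex.I) * ((Real.Gamma (1 + t))⁻¹ : ℝ)) / t

/-- The number of the real zeros `> 1` minus the number of the real poles `> 1`, with
multiplicities. -/
noncomputable def excess (F : ℂ → ℂ) : ℤ :=
  ∑ᶠ σ ∈ Set.Ioi (1 : ℝ), (meromorphicOrderAt F (σ : ℂ)).untop₀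

section aux

open Pool.Agent.X218.AV Pool.Agent.W189.ML Pool.Agent.W189.LC
open Pool.Agent.H921R2.TatePole (nm two_le_nm nm_summable)

variable {d : ℕ} {P : HeightOneSpectrum (𝓞 K) → Polynomial ℤ}

theorem ep (hP : IsLocal d P) : EPd (q (K := K)) P d where
  two_le := fun v => by
    have : (2 : ℕ) ≤ nm v := two_le_nm v
    show (2 : ℝ) ≤ (nm v : ℝ)
    exact_mod_cast this
  sum := fun σ hσ => nm_summable hσ
  deg := hP.degree
  one := hP.one
  weil := hP.weil

theorem term_eq (P : HeightOneSpectrum (𝓞 K) → Polynomial ℤ) (γ T : ℝ)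
    (x : HeightOneSpectrum (𝓞 K) × ℕ) : term P γ T x = rT q P γ T x := by
  have h1 : powerSum P x.1 (x.2 + 1) = ps (P x.1) (x.2 + 1) := rfl
  have h2 : fr q x / T = (x.2 + 1) * Real.log (q x.1) / T := rfl
  unfold term rT cd om
  rw [h1, h2]
  push_cast
  rw [div_eq_mul_inv, div_eq_mul_inv]
  rw [mul_inv]
  ring

theorem S_eq (P : HeightOneSpectrum (𝓞 K) → Polynomial ℤ) (γ T : ℝ) : S P γ T = rS q P γ T :=
  tsum_congr fun x => term_eq P γ T x

/-- the sums for `γ = 0` -/
theorem S_zero (P : HeightOneSpectrum (𝓞 K) → Polynomial ℤ) (T : ℝ) :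
    S P 0 T = ((-mean (fr q) (cd q P) T : ℝ) : ℂ) := by
  rw [S_eq]
  unfold rS mean
  rw [Complex.ofReal_neg, Complex.ofReal_tsum, ← tsum_neg]
  refine tsum_congr fun x => ?_
  unfold rT
  rw [zero_mul, Complex.ofReal_zero, zero_mul, Complex.exp_zero, mul_one]
  push_cast
  ring

theorem Lambda_zero : Lambda 0 = ((kap : ℝ) : ℂ) := by
  unfold Lambda kap
  rw [← integral_complex_ofReal]
  refine MeasureTheory.setIntegral_congr_fun measurableSet_Ioi fun t _ => ?_
  show _ = (((Real.exp (-t) - (Real.Gamma (1 + t))⁻¹) / t : ℝ) : ℂ)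
  rw [zero_mul, Complex.ofReal_zero, zero_mul, Complex.exp_zero, one_mul]
  push_cast
  rfl

end aux

open Pool.Agent.X218.AV Pool.Agent.W189.ML Pool.Agent.W189.LC in
/-- **Main theorem.** Let `P_v` be the local polynomials of an abelian variety over `K`, or any family
with the properties `IsLocal`, and `F` a continuation of the `L`-function that is meromorphic at the real
points of `[1, 3/2]`.  (1) The series `S_γ(T)` converge absolutely and `F` has finitely many real zeros
and poles `> 1`.  (2) The order `m` of `F` at `1` is finite, its leading coefficient `l` is real, and for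
`γ > π/2`: `S_γ(T) = m (log T - Λ_γ) - log |l| + π i e + O(1 / T)`.  (3) For `γ > π/2` the order of `F` at
`1` is `r` if and only if `Re S_γ(T) / log T → r`.  (4) For `γ > π/2` and a real number `B ≠ 0` the order is
`r` and the leading coefficient is `B` if and only if `exp S_γ(T) / T ^ r → exp(- r Λ_γ) / B`.  (5) For
`γ = 0` and `B > 0` the limit in (4) holds if and only if, in addition, `F` has no real zeros and poles
`> 1`. -/
theorem result (K : Type) [Field K] [NumberField K] (d : ℕ)
    (P : HeightOneSpectrum (𝓞 K) → Polynomial ℤ) (hP : IsLocal d P) (F : ℂ → ℂ)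
    (hF : IsContinuation P F) :
    (∀ γ T : ℝ, 0 < T → Summable fun x => ‖term P γ T x‖) ∧
    {σ : ℝ | 1 < σ ∧ meromorphicOrderAt F (σ : ℂ) ≠ 0}.Finite ∧
    (∃ (m : ℤ) (l : ℝ), meromorphicOrderAt F 1 = m ∧ meromorphicTrailingCoeffAt F 1 = l ∧ l ≠ 0 ∧
      ∀ γ : ℝ, Real.pi / 2 < γ →
      (fun T : ℝ => S P γ T - (m * (Real.log T - Lambda γ) - Real.log |l| +
        Real.pi * excess F * Complex.I)) =O[atTop] (fun T : ℝ => 1 / T)) ∧
    (∀ γ : ℝ, Real.pi / 2 < γ → ∀ r : ℕ, meromorphicOrderAt F 1 = ((r : ℤ) : WithTop ℤ) ↔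
      Tendsto (fun T : ℝ => (S P γ T).re / Real.log T) atTop (𝓝 (r : ℝ))) ∧
    (∀ γ : ℝ, Real.pi / 2 < γ → ∀ (r : ℕ) (B : ℝ), B ≠ 0 →
      ((meromorphicOrderAt F 1 = ((r : ℤ) : WithTop ℤ) ∧ meromorphicTrailingCoeffAt F 1 = B) ↔
        Tendsto (fun T : ℝ => Complex.exp (S P γ T) / (T : ℂ) ^ r) atTop
          (𝓝 (Complex.exp (-(r * Lambda γ)) / B)))) ∧
    ∀ (r : ℕ) (B : ℝ), 0 < B →
      (((∀ σ : ℝ, 1 < σ → meromorphicOrderAt F (σ : ℂ) = 0) ∧
        meromorphicOrderAt F 1 = ((r : ℤ) : WithTop ℤ) ∧ meromorphicTrailingCoeffAt F 1 = B) ↔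
        Tendsto (fun T : ℝ => Complex.exp (S P 0 T) / (T : ℂ) ^ r) atTop
          (𝓝 (Complex.exp (-(r * Lambda 0)) / B))) := by
  have E := ep hP
  obtain ⟨h1, h2⟩ := hF
  have hright : ∀ σ : ℝ, 3 / 2 < σ → meromorphicOrderAt F (σ : ℂ) = 0 := fun σ hσ =>
    (E.order_right h2 (s := (σ : ℂ)) (by rw [Complex.ofReal_re]; exact hσ)).1
  have hS : ∀ γ T : ℝ, S P γ T = rS q P γ T := fun γ T => S_eq P γ T
  have hπ : Real.pi / 2 < Real.pi := by linarith [Real.pi_pos]
  obtain ⟨m, l, hm, hl, hl0, -, -⟩ := E.rot h1 h2 hπ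
  have hO : ∀ γ : ℝ, Real.pi / 2 < γ →
      (fun T : ℝ => S P γ T - (m * (Real.log T - Lambda γ) - Real.log |l| +
        Real.pi * excess F * Complex.I)) =O[atTop] (fun T : ℝ => 1 / T) := by
    intro γ hγ
    obtain ⟨m', l', hm', hl', -, hO', -⟩ := E.rot h1 h2 hγ
    have e1 : m' = m := by
      rw [hm] at hm'
      exact_mod_cast hm'.symm
    have e2 : l' = l := by
      rw [hl] at hl'
      exact_mod_cast hl'.symm
    subst e1 e2
    refine hO'.congr_left fun T => ?_
    rw [hS]
    rfl
  refine ⟨fun γ T hT => ?_, ?_, ⟨m, l, hm, hl, hl0, hO⟩, fun γ hγ r => ?_, fun γ hγ r B hB => ?_,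
    fun r B hB => ?_⟩
  · refine (E.rT_summable (γ := γ) hT).congr fun x => ?_
    rw [term_eq]
  · have D := E.mdata h1 h2
    have h3 := D.finite_zeros
    refine (h3.image fun x => 1 + x).subset ?_
    rintro σ ⟨hσ1, hσ⟩
    refine ⟨σ - 1, ⟨⟨by linarith, ?_⟩, ?_⟩, by ring⟩
    · by_contra h2
      push Not at h2
      exact hσ (hright σ (by linarith))
    · rw [Pool.Agent.W189.LC.order_shift]
      have e : 1 + (σ - 1) = σ := by ring
      rw [e]
      exact hσ
  · -- the ratio
    have hlim : Tendsto (fun T : ℝ => (S P γ T).re / Real.log T) atTop (𝓝 (m : ℝ)) := by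
      have h1 : Tendsto (fun T : ℝ => S P γ T - (m * (Real.log T - Lambda γ) - Real.log |l| +
          Real.pi * excess F * Complex.I)) atTop (𝓝 0) :=
        (hO γ hγ).trans_tendsto (tendsto_const_nhds.div_atTop tendsto_id)
      have h2 : Tendsto (fun T : ℝ => (S P γ T - (m * (Real.log T - Lambda γ) - Real.log |l| +
          Real.pi * excess F * Complex.I)).re) atTop (𝓝 0) := by
        have h := (Complex.continuous_re.tendsto 0).comp h1
        rw [Complex.zero_re] at h
        exact h
      have h3 : Tendsto (fun T : ℝ => ((S P γ T - (m * (Real.log T - Lambda γ) - Real.log |l| +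
          Real.pi * excess F * Complex.I)).re + (-(m * (Lambda γ).re) - Real.log |l|)) / Real.log T)
          atTop (𝓝 0) :=
        (h2.add_const _).div_atTop Real.tendsto_log_atTop
      have h4 : Tendsto (fun T : ℝ => (m : ℝ) + ((S P γ T - (m * (Real.log T - Lambda γ) -
          Real.log |l| + Real.pi * excess F * Complex.I)).re +
          (-(m * (Lambda γ).re) - Real.log |l|)) / Real.log T) atTop (𝓝 ((m : ℝ) + 0)) :=
        tendsto_const_nhds.add h3
      rw [add_zero] at h4
      refine h4.congr' ?_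
      filter_upwards [eventually_gt_atTop (1 : ℝ)] with T hT
      have hlog : 0 < Real.log T := Real.log_pos hT
      have e1 : (S P γ T - (m * (Real.log T - Lambda γ) - Real.log |l| +
          Real.pi * excess F * Complex.I)).re =
          (S P γ T).re - (m * (Real.log T - (Lambda γ).re) - Real.log |l|) := by
        simp
      rw [e1]
      field_simp
      ring
    rw [hm]
    constructor
    · intro h
      have h2 : m = (r : ℤ) := by exact_mod_cast h
      rw [h2] at hlim
      simpa using hlim
    · intro h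
      have h2 := tendsto_nhds_unique hlim h
      have h3 : m = (r : ℤ) := by exact_mod_cast h2
      rw [h3]
  · rw [E.rot_iff h1 h2 hγ r hB]
    simp only [hS]
    rfl
  · -- the case `γ = 0`
    have h3 := (E.mdata h1 h2).iff r hB
    rw [forall_shift, order_shift0, coeff_shift0] at h3
    have h4 : ((∀ σ : ℝ, 1 < σ → meromorphicOrderAt F (σ : ℂ) = 0) ∧
        meromorphicOrderAt F 1 = ((r : ℤ) : WithTop ℤ) ∧ meromorphicTrailingCoeffAt F 1 = B) ↔
        ((∀ σ ∈ Set.Ioc (1 : ℝ) 2, meromorphicOrderAt F (σ : ℂ) = 0) ∧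
        meromorphicOrderAt F 1 = ((r : ℤ) : WithTop ℤ) ∧ meromorphicTrailingCoeffAt F 1 = B) := by
      constructor
      · rintro ⟨h5, h6⟩
        exact ⟨fun σ hσ => h5 σ hσ.1, h6⟩
      · rintro ⟨h5, h6⟩
        refine ⟨fun σ hσ => ?_, h6⟩
        by_cases h : σ ≤ 2
        · exact h5 σ ⟨hσ, h⟩
        · push Not at h
          exact hright σ (by linarith)
    rw [h4, h3]
    set M : ℝ → ℝ := fun T => mean (fr q) (cd q P) T with hM
    have h5 : ∀ᶠ T : ℝ in atTop, Complex.exp (S P 0 T) / (T : ℂ) ^ r =
        ((Real.exp (-(M T + r * Real.log T)) : ℝ) : ℂ) := by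
      filter_upwards [eventually_gt_atTop (0 : ℝ)] with T hT
      rw [S_zero, ← Complex.ofReal_exp, neg_add, Real.exp_add, Real.exp_neg (r * Real.log T),
        Real.exp_nat_mul, Real.exp_log hT]
      push_cast
      rfl
    have h6 : Complex.exp (-(r * Lambda 0)) / B =
        ((Real.exp (-(Real.log B + r * kap)) : ℝ) : ℂ) := by
      rw [Lambda_zero, neg_add, Real.exp_add, Real.exp_neg (Real.log B), Real.exp_log hB]
      push_cast
      rw [div_eq_mul_inv, mul_comm]
    rw [tendsto_congr' h5, h6]
    constructor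
    · intro h7
      have h8 := (Real.continuous_exp.tendsto _).comp h7.neg
      exact (Complex.continuous_ofReal.tendsto _).comp h8
    · intro h7
      have h8 := (Complex.continuous_re.tendsto _).comp h7
      have h9 := ((Real.continuousAt_log (Real.exp_pos _).ne').tendsto).comp h8
      have h10 : Tendsto (fun T : ℝ => -(M T + r * Real.log T)) atTop
          (𝓝 (-(Real.log B + r * kap))) := by
        rw [Real.log_exp] at h9
        refine h9.congr fun T => ?_
        simp only [Function.comp_apply, Complex.ofReal_re, Real.log_exp]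
      have h11 := h10.neg
      simp only [neg_neg] at h11
      exact h11

end Pool.Agent.Results.MP_dfae13_nt.RotatedFormula
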