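import Pool.Agent.X218.AV.Pol
import Pool.Agent.Results.MP_dfae13_nt.FormulaFromFiniteSums
import Pool.Agent.Results.MP_dfae13_nt.RotatedFormula

/-!
# The leading-term formula for abelian varieties without regulator and torsion

`A` is an abelian variety over a number field `K` (`K = ℚ` in the question) with dual `A'`, and
`λ : A → A'` is the polarisation given by a symmetric ample line bundle `ℒ`.  Of the groups
`G = A(K)`, `G' = A'(K)` we use the theorem of Mordell and Weil and the theory of Néron and Tate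
(`IsPolarised`): there is the canonical bilinear pairing `G × G' → ℝ`; `⟨P, λ Q⟩` is symmetric, `⟨P, λ P⟩ ≥ 0`
is the canonical height for the line bundle `ℒ²` (with the right sign of the pairing), it differs from any
height `h` for `ℒ²` by a bounded function, there are finitely many points of bounded height, and the kernel
and the cokernel of `λ : G → G'` are finite.  Let `r` be the rank, `R_A = |det ⟨a_i, a'_j⟩|` the regulator of the
question, for bases of `G` and `G'` modulo torsion,

`N(T) = #{P ∈ A(K) : h(P) ≤ T}`,  `deg λ = #coker (λ : G → G') / #ker (λ : G → G')`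

(`deg λ = 1` for a principal polarisation, for instance for Jacobians), and
`V_r = π^(r/2) / Γ(r/2 + 1)` the volume of the unit ball.  It is shown:

(1) `N(T)² / T^r → #G_tors #G'_tors V_r² / (deg λ R_A)`: the combination of the regulator and of the torsion
subgroups of `A` and `A'` in the formula of Birch and Swinnerton-Dyer is given by the number of the points
of `A(K)` of bounded height, and by the integers `#ker`, `#coker`.

(2) Suppose that the `L`-function has a continuation `F` which is meromorphic at the points of the real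
segment `[1, 3/2]`, and let `exp S_γ(T)`, `γ > π/2`, be the rotated products of the `#A(k_v) / q_v^g` of
`RotatedFormula`.  For every real `B ≠ 0` the order of `F` at `1` is `r` and its leading coefficient is
`B R_A / (#G_tors #G'_tors)` if and only if `exp S_γ(T) / N(T)² → exp (- r Λ_γ) deg λ / (B V_r²)`.  With
`B = #Ш V_∞ V_bad` this says that the formula of the question is equivalent to a limit formula with the
numbers of the points of `A` modulo the primes and the numbers of the global points of bounded height, in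
which neither the regulator, nor the torsion, nor the `L`-function appears; there is no condition on the
zeros of `F`.  Moreover `ord F = r`, `> r`, `< r` if and only if `|exp S_γ(T)|` and `N(T)²` have the same order of
magnitude, or their quotient tends to infinity, or to zero.

(3) Without any hypothesis of continuation: for `ρ₀ ≥ 1` and `B > 0` the FINITE sums of
`FormulaFromFiniteSums` satisfy
`S_{ρ,ρ'}(Y) + 2 log N(log Y) → log (B V_r² / deg λ) - r γ / ρ` for all `ρ' > ρ > ρ₀`, if and only if the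
`L`-series has a continuation `Z` which is holomorphic and without zeros in the union of the half plane
`Re s > 3/2` and the sector `|arg (s - 1)| < π / (2 ρ₀)`, and `Z(s) ∼ B R_A / (#G_tors #G'_tors) (s - 1)^r` as
`s → 1` in every smaller sector.

For elliptic curves compare `MP_9ab903_nt.RegulatorFree` and `MP_4a9ea6_nt.RegulatorFreeSectors`.
-/

set_option autoImplicit false

open IsDedekindDomain NumberField Filter Topology

namespace Pool.Agent.Results.MP_dfae13_nt.RegulatorFree

open Pool.Agent.Results.MP_dfae13_nt.RotatedFormula (IsLocal IsContinuation Lambda)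
open Pool.Agent.Results.MP_dfae13_nt.FormulaFromFiniteSums (IsWeil InSector IsLSeries)

/-- The groups `G = A(K)` and `G' = A'(K)` for an abelian variety `A` over a number field, the canonical
height pairing, the homomorphism `λ` given by the polarisation of a symmetric ample line bundle `ℒ`, and a
height `h` for `ℒ²`. -/
structure IsPolarised {G G' : Type} [AddCommGroup G] [AddCommGroup G'] (pair : G →+ G' →+ ℝ)
    (lam : G →+ G') (h : G → ℝ) : Prop where
  fg : AddGroup.FG G
  fg' : AddGroup.FG G'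
  ker : Finite lam.ker
  coker : Finite (G' ⧸ lam.range)
  symm : ∀ P Q, pair P (lam Q) = pair Q (lam P)
  nonneg : ∀ P, 0 ≤ pair P (lam P)
  near : ∃ C : ℝ, ∀ P, |h P - pair P (lam P)| ≤ C
  north : ∀ B : ℝ, {P | h P ≤ B}.Finite

/-- `g` is a basis of the group modulo torsion. -/
def IsBasis {G : Type} [AddCommGroup G] {r : ℕ} (g : Fin r → G) : Prop :=
  ∀ P : G, ∃! n : Fin r → ℤ, IsOfFinAddOrder (P - ∑ i, n i • g i)

/-- The regulator `|det ⟨a_i, a'_j⟩|`. -/
noncomputable def Reg {G G' : Type} [AddCommGroup G] [AddCommGroup G'] (pair : G →+ G' →+ ℝ) {r : ℕ}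
    (g : Fin r → G) (g' : Fin r → G') : ℝ := |(Matrix.of fun i j => pair (g i) (g' j)).det|

/-- The order of the torsion subgroup. -/
noncomputable def tors (G : Type) [AddCommGroup G] : ℕ := Nat.card {P : G // IsOfFinAddOrder P}

/-- `#coker λ / #ker λ` -/
noncomputable def deg {G G' : Type} [AddCommGroup G] [AddCommGroup G'] (lam : G →+ G') : ℝ :=
  (Nat.card (G' ⧸ lam.range) : ℝ) / Nat.card lam.ker

/-- `N(T)`: the number of the points of height at most `T`. -/
noncomputable def N {G : Type} (h : G → ℝ) (T : ℝ) : ℕ := Nat.card {P : G // h P ≤ T}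

/-- The volume `π^(r/2) / Γ(r/2 + 1)` of the unit ball in `ℝ^r`. -/
noncomputable def V (r : ℕ) : ℝ := √Real.pi ^ r / Real.Gamma (r / 2 + 1)

section aux

variable {G G' : Type} [AddCommGroup G] [AddCommGroup G'] {pair : G →+ G' →+ ℝ} {lam : G →+ G'}
  {h : G → ℝ} {r : ℕ} {g : Fin r → G} {g' : Fin r → G'}

/-- the limit of `N(T)² / T^r` -/
noncomputable def kc (pair : G →+ G' →+ ℝ) (lam : G →+ G') (g : Fin r → G) (g' : Fin r → G') : ℝ :=
  (tors G : ℝ) * tors G' * V r ^ 2 / (deg lam * Reg pair g g')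

theorem V_pos (r : ℕ) : 0 < V r := Pool.Agent.TH942.ballVol_pos r

theorem count (hp : IsPolarised pair lam h) (hg : IsBasis g) (hg' : IsBasis g') :
    0 < Reg pair g g' ∧ 0 < tors G ∧ 0 < tors G' ∧ 0 < deg lam ∧
    Tendsto (fun T : ℝ => (N h T : ℝ) ^ 2 / T ^ r) atTop (𝓝 (kc pair lam g g')) := by
  have hp' : Pool.Agent.X218.AV.IsPol pair lam h :=
    ⟨hp.fg, hp.fg', hp.ker, hp.coker, hp.symm, hp.nonneg, hp.near, hp.north⟩
  obtain ⟨h1, h2, h3, h4, h5, h6⟩ := Pool.Agent.X218.AV.count_pol hp' hg hg'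
  refine ⟨h1, h2, h3, ?_, h6⟩
  have h4' : (0 : ℝ) < Nat.card lam.ker := by exact_mod_cast h4
  have h5' : (0 : ℝ) < lam.range.index := by exact_mod_cast h5
  exact div_pos h5' h4'

theorem kc_pos (hp : IsPolarised pair lam h) (hg : IsBasis g) (hg' : IsBasis g') :
    0 < kc pair lam g g' := by
  obtain ⟨h1, h2, h3, h4, -⟩ := count hp hg hg'
  have h2' : (0 : ℝ) < tors G := by exact_mod_cast h2
  have h3' : (0 : ℝ) < tors G' := by exact_mod_cast h3
  have := V_pos r
  unfold kc
  positivity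

theorem N_pos (hp : IsPolarised pair lam h) (hg : IsBasis g) (hg' : IsBasis g') :
    ∀ᶠ T : ℝ in atTop, 0 < (N h T : ℝ) := by
  obtain ⟨-, -, -, -, hR⟩ := count hp hg hg'
  filter_upwards [hR.eventually (lt_mem_nhds (kc_pos hp hg hg')), eventually_gt_atTop 0] with T h1 h2
  by_contra h3
  have h4 : (N h T : ℝ) = 0 := le_antisymm (not_lt.1 h3) (Nat.cast_nonneg _)
  rw [h4] at h1
  simp at h1

/-- the ranks of the two groups -/
theorem rank_eq (hp : IsPolarised pair lam h) : Module.finrank ℤ G = Module.finrank ℤ G' := by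
  have i1 : Module.Finite ℤ G := Module.Finite.iff_addGroup_fg.2 hp.fg
  have i2 : Module.Finite ℤ G' := Module.Finite.iff_addGroup_fg.2 hp.fg'
  set f : G →ₗ[ℤ] G' := lam.toIntLinearMap with hf
  have h1 := f.ker.finrank_quotient_add_finrank
  rw [f.quotKerEquivRange.finrank_eq] at h1
  have h2 := f.range.finrank_quotient_add_finrank
  have h3 : ∀ (M : Type) [AddCommGroup M], Finite M → Module.finrank ℤ M = 0 := by
    intro M _ _
    apply Module.IsTorsion.finrank_eq_zero
    intro x
    refine ⟨⟨(Nat.card M : ℤ), ?_⟩, ?_⟩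
    · rw [mem_nonZeroDivisors_iff_ne_zero]
      exact_mod_cast (Nat.card_pos (α := M)).ne'
    · show ((Nat.card M : ℕ) : ℤ) • x = 0
      rw [natCast_zsmul]
      exact card_nsmul_eq_zero'
  have h4 : Module.finrank ℤ f.ker = 0 := h3 _ hp.ker
  have h5 : Module.finrank ℤ (G' ⧸ f.range) = 0 := h3 _ hp.coker
  omega

theorem bases (hp : IsPolarised pair lam h) :
    ∃ (r : ℕ) (g : Fin r → G) (g' : Fin r → G'), IsBasis g ∧ IsBasis g' := by
  obtain ⟨r, g, hg⟩ := Pool.Agent.TH942.exists_basis hp.fg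
  obtain ⟨r', g', hg'⟩ := Pool.Agent.TH942.exists_basis hp.fg'
  have h1 := Pool.Agent.TH942.card_basis hg
  have h2 := Pool.Agent.TH942.card_basis hg'
  rw [Fintype.card_fin] at h1 h2
  have h3 : r' = r := by rw [← h1, ← h2, rank_eq hp]
  subst h3
  exact ⟨_, g, g', hg, hg'⟩

end aux

section rotated

open Pool.Agent.X218.AV Pool.Agent.Results.MP_dfae13_nt.RotatedFormula

variable {K : Type} [Field K] [NumberField K] {G G' : Type} [AddCommGroup G] [AddCommGroup G']
  {pair : G →+ G' →+ ℝ} {lam : G →+ G'} {h : G → ℝ} {r : ℕ} {g : Fin r → G} {g' : Fin r → G'}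

/-- part (2) -/
theorem part_two (hp : IsPolarised pair lam h) (hg : IsBasis g) (hg' : IsBasis g') {d : ℕ}
    {P : HeightOneSpectrum (𝓞 K) → Polynomial ℤ} (hP : IsLocal d P) {F : ℂ → ℂ}
    (hF : IsContinuation P F) {γ : ℝ} (hγ : Real.pi / 2 < γ) :
    (∀ B : ℝ, B ≠ 0 →
      ((meromorphicOrderAt F 1 = ((r : ℤ) : WithTop ℤ) ∧ meromorphicTrailingCoeffAt F 1 =
          ((B * Reg pair g g' / (tors G * tors G') : ℝ) : ℂ)) ↔
        Tendsto (fun T : ℝ => Complex.exp (S P γ T) / (N h T : ℂ) ^ 2) atTop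
          (𝓝 (Complex.exp (-(r * Lambda γ)) * deg lam / (B * V r ^ 2))))) ∧
    (meromorphicOrderAt F 1 = ((r : ℤ) : WithTop ℤ) ↔ ∃ c C : ℝ, 0 < c ∧
      ∀ᶠ T : ℝ in atTop, c * (N h T : ℝ) ^ 2 ≤ ‖Complex.exp (S P γ T)‖ ∧
        ‖Complex.exp (S P γ T)‖ ≤ C * (N h T : ℝ) ^ 2) ∧
    (((r : ℤ) : WithTop ℤ) < meromorphicOrderAt F 1 ↔
      Tendsto (fun T : ℝ => ‖Complex.exp (S P γ T)‖ / (N h T : ℝ) ^ 2) atTop atTop) ∧
    (meromorphicOrderAt F 1 < ((r : ℤ) : WithTop ℤ) ↔
      Tendsto (fun T : ℝ => ‖Complex.exp (S P γ T)‖ / (N h T : ℝ) ^ 2) atTop (𝓝 0)) := by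
  obtain ⟨m, l, hm, hl, hl0, -, hlim⟩ := (ep hP).rot hF.1 hF.2 hγ
  have hlim' : Tendsto (fun T : ℝ => Complex.exp (S P γ T) / (T : ℂ) ^ m) atTop
      (𝓝 (Complex.exp (-(m * Lambda γ)) / l)) := by
    refine hlim.congr fun T => ?_
    rw [S_eq]
  obtain ⟨hreg, ht1, ht2, hdeg, hR⟩ := count hp hg hg'
  have hc0 := kc_pos hp hg hg'
  set c₀ : ℝ := kc pair lam g g' with hc₀
  have hRpos := N_pos hp hg hg'
  have hlc : (l : ℂ) ≠ 0 := by exact_mod_cast hl0
  have hcc : (c₀ : ℂ) ≠ 0 := by exact_mod_cast hc0.ne'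
  have hV := V_pos r
  -- the asymptotic formula
  have hmain : Tendsto (fun T : ℝ => (T : ℂ) ^ ((r : ℤ) - m) *
      (Complex.exp (S P γ T) / (N h T : ℂ) ^ 2)) atTop
      (𝓝 (Complex.exp (-(m * Lambda γ)) / (l * c₀))) := by
    have h1 : Tendsto (fun T : ℝ => (((N h T : ℝ) ^ 2 / T ^ r : ℝ) : ℂ)) atTop (𝓝 (c₀ : ℂ)) :=
      (Complex.continuous_ofReal.tendsto c₀).comp hR
    have h3 := hlim'.div h1 hcc
    rw [div_div] at h3
    refine h3.congr' ?_
    filter_upwards [hRpos, eventually_gt_atTop 0] with T hT1 hT2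
    have e1 : (T : ℂ) ≠ 0 := by exact_mod_cast hT2.ne'
    have e2 : (N h T : ℂ) ≠ 0 := by exact_mod_cast hT1.ne'
    have e3 : (T : ℂ) ^ m ≠ 0 := zpow_ne_zero _ e1
    simp only [Pi.div_apply]
    rw [zpow_sub₀ e1, zpow_natCast]
    push_cast
    field_simp
  set L₀ : ℂ := Complex.exp (-(m * Lambda γ)) / (l * c₀) with hL₀
  have hL0 : L₀ ≠ 0 := div_ne_zero (Complex.exp_ne_zero _) (mul_ne_zero hlc hcc)
  -- absolute values
  have hnorm : Tendsto (fun T : ℝ => T ^ ((r : ℤ) - m) *
      (‖Complex.exp (S P γ T)‖ / (N h T : ℝ) ^ 2)) atTop (𝓝 ‖L₀‖) := by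
    refine hmain.norm.congr' ?_
    filter_upwards [eventually_gt_atTop 0] with T hT
    rw [norm_mul, norm_zpow, norm_div, norm_pow, Complex.norm_real, Real.norm_eq_abs,
      abs_of_pos hT, Complex.norm_natCast]
  have hLp : 0 < ‖L₀‖ := norm_pos_iff.2 hL0
  -- the three cases
  have c1 : m = (r : ℤ) → Tendsto (fun T : ℝ => ‖Complex.exp (S P γ T)‖ /
      (N h T : ℝ) ^ 2) atTop (𝓝 ‖L₀‖) := by
    intro h
    refine hnorm.congr fun T => ?_
    rw [h, sub_self, zpow_zero, one_mul]
  have c2 : (r : ℤ) < m → Tendsto (fun T : ℝ => ‖Complex.exp (S P γ T)‖ /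
      (N h T : ℝ) ^ 2) atTop atTop := by
    intro h
    have h1 : Tendsto (fun T : ℝ => T ^ (m - (r : ℤ))) atTop atTop := by
      obtain ⟨n, hn⟩ := Int.eq_ofNat_of_zero_le (sub_nonneg.2 h.le)
      rw [hn]
      simp only [zpow_natCast]
      refine tendsto_pow_atTop ?_
      omega
    refine (h1.atTop_mul_pos hLp hnorm).congr' ?_
    filter_upwards [eventually_gt_atTop 0] with T hT
    rw [← mul_assoc, ← zpow_add₀ hT.ne']
    have : m - (r : ℤ) + ((r : ℤ) - m) = 0 := by ring
    rw [this, zpow_zero, one_mul]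
  have c3 : m < (r : ℤ) → Tendsto (fun T : ℝ => ‖Complex.exp (S P γ T)‖ /
      (N h T : ℝ) ^ 2) atTop (𝓝 0) := by
    intro h
    have h1 : Tendsto (fun T : ℝ => T ^ (m - (r : ℤ))) atTop (𝓝 0) :=
      tendsto_zpow_atTop_zero (by linarith)
    have h2 := h1.mul hnorm
    rw [zero_mul] at h2
    refine h2.congr' ?_
    filter_upwards [eventually_gt_atTop 0] with T hT
    rw [← mul_assoc, ← zpow_add₀ hT.ne']
    have : m - (r : ℤ) + ((r : ℤ) - m) = 0 := by ring
    rw [this, zpow_zero, one_mul]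
  have hcast : ∀ {x y : ℤ}, ((x : WithTop ℤ) = (y : WithTop ℤ)) ↔ x = y := fun {x y} =>
    WithTop.coe_inj
  refine ⟨fun B hB => ?_, ?_, ?_, ?_⟩
  · have hBc : (B : ℂ) ≠ 0 := by exact_mod_cast hB
    have e1 : (Reg pair g g' : ℂ) ≠ 0 := by exact_mod_cast hreg.ne'
    have e2 : (tors G : ℂ) ≠ 0 := by exact_mod_cast ht1.ne'
    have e2' : (tors G' : ℂ) ≠ 0 := by exact_mod_cast ht2.ne'
    have e3 : (V r : ℂ) ≠ 0 := by exact_mod_cast hV.ne'
    have e4 : (deg lam : ℂ) ≠ 0 := by exact_mod_cast hdeg.ne'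
    -- the constant
    have hconst : ((B * Reg pair g g' / (tors G * tors G') : ℝ) : ℂ) * c₀ =
        (B : ℂ) * V r ^ 2 / deg lam := by
      rw [hc₀]
      unfold kc
      push_cast
      field_simp
    have hconst' : Complex.exp (-(r * Lambda γ)) * deg lam / (B * V r ^ 2) =
        Complex.exp (-(r * Lambda γ)) / (((B * Reg pair g g' / (tors G * tors G') : ℝ) : ℂ) * c₀) := by
      rw [hconst]
      field_simp
    rw [hm, hl, hcast, hconst']
    set B₁ : ℂ := ((B * Reg pair g g' / (tors G * tors G') : ℝ) : ℂ) with hB₁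
    have hB₁0 : B₁ ≠ 0 := by
      rw [hB₁]
      push_cast
      exact div_ne_zero (mul_ne_zero hBc e1) (mul_ne_zero e2 e2')
    constructor
    · rintro ⟨h1, h2⟩
      have h3 : Tendsto (fun T : ℝ => Complex.exp (S P γ T) / (N h T : ℂ) ^ 2) atTop
          (𝓝 L₀) := by
        refine hmain.congr fun T => ?_
        rw [h1, sub_self, zpow_zero, one_mul]
      have h4 : L₀ = Complex.exp (-(r * Lambda γ)) / (B₁ * c₀) := by
        rw [hL₀, h1, h2]
        push_cast
        rfl
      rwa [h4] at h3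
    · intro h1
      set Z : ℂ := Complex.exp (-(r * Lambda γ)) / (B₁ * c₀) with hZ
      have hZ0 : Z ≠ 0 := div_ne_zero (Complex.exp_ne_zero _) (mul_ne_zero hB₁0 hcc)
      have h2 : Tendsto (fun T : ℝ => ‖Complex.exp (S P γ T)‖ / (N h T : ℝ) ^ 2) atTop
          (𝓝 ‖Z‖) := by
        refine h1.norm.congr fun T => ?_
        rw [norm_div, norm_pow, Complex.norm_natCast]
      have h3 : m = (r : ℤ) := by
        rcases lt_trichotomy m (r : ℤ) with h | h | h
        · exact absurd (tendsto_nhds_unique h2 (c3 h)) (norm_ne_zero_iff.2 hZ0)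
        · exact h
        · exact absurd h2 (not_tendsto_nhds_of_tendsto_atTop (c2 h) _)
      have h4 : L₀ = Z := by
        refine tendsto_nhds_unique ?_ h1
        refine hmain.congr fun T => ?_
        rw [h3, sub_self, zpow_zero, one_mul]
      refine ⟨h3, ?_⟩
      have h5 : Complex.exp (-((r : ℂ) * Lambda γ)) ≠ 0 := Complex.exp_ne_zero _
      rw [hL₀, hZ, h3] at h4
      push_cast at h4
      rw [div_eq_div_iff (mul_ne_zero hlc hcc) (mul_ne_zero hB₁0 hcc)] at h4
      have h6 := mul_left_cancel₀ h5 h4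
      exact (mul_right_cancel₀ hcc h6).symm
  · rw [hm, hcast]
    constructor
    · intro hmr
      have h1 := c1 hmr
      refine ⟨‖L₀‖ / 2, 2 * ‖L₀‖, by positivity, ?_⟩
      filter_upwards [h1.eventually (lt_mem_nhds (half_lt_self hLp)),
        h1.eventually (gt_mem_nhds (by linarith : ‖L₀‖ < 2 * ‖L₀‖)), hRpos] with T e1 e2 e3
      have e4 : 0 < (N h T : ℝ) ^ 2 := by positivity
      rw [lt_div_iff₀ e4] at e1
      rw [div_lt_iff₀ e4] at e2
      exact ⟨e1.le, e2.le⟩
    · rintro ⟨c, C, hc, h⟩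
      rcases lt_trichotomy m (r : ℤ) with h1 | h1 | h1
      · exfalso
        obtain ⟨T, e1, e2, e3⟩ := (((c3 h1).eventually (gt_mem_nhds hc)).and (h.and hRpos)).exists
        rw [div_lt_iff₀ (by positivity)] at e1
        linarith [e2.1]
      · exact h1
      · exfalso
        obtain ⟨T, e1, e2, e3⟩ := (((c2 h1).eventually_gt_atTop C).and (h.and hRpos)).exists
        rw [lt_div_iff₀ (by positivity)] at e1
        linarith [e2.2]
  · rw [hm, WithTop.coe_lt_coe]
    constructor
    · exact c2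
    · intro h
      rcases lt_trichotomy m (r : ℤ) with h1 | h1 | h1
      · exact absurd (c3 h1) (not_tendsto_nhds_of_tendsto_atTop h _)
      · exact absurd (c1 h1) (not_tendsto_nhds_of_tendsto_atTop h _)
      · exact h1
  · rw [hm, WithTop.coe_lt_coe]
    constructor
    · exact c3
    · intro h
      rcases lt_trichotomy m (r : ℤ) with h1 | h1 | h1
      · exact h1
      · exact absurd (tendsto_nhds_unique (c1 h1) h) hLp.ne'
      · exact absurd h (not_tendsto_nhds_of_tendsto_atTop (c2 h1) _)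

end rotated

section finite

variable {K : Type} [Field K] [NumberField K] {G G' : Type} [AddCommGroup G] [AddCommGroup G']
  {pair : G →+ G' →+ ℝ} {lam : G →+ G'} {h : G → ℝ} {r : ℕ} {g : Fin r → G} {g' : Fin r → G'}

/-- `2 log N(log Y) = r log log Y + log κ + o(1)` -/
theorem log_count (hp : IsPolarised pair lam h) (hg : IsBasis g) (hg' : IsBasis g') :
    Tendsto (fun Y : ℝ => 2 * Real.log (N h (Real.log Y)) - r * Real.log (Real.log Y)) atTop
      (𝓝 (Real.log (kc pair lam g g'))) := by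
  obtain ⟨-, -, -, -, hR⟩ := count hp hg hg'
  have hc0 := kc_pos hp hg hg'
  have h1 : Tendsto (fun T : ℝ => Real.log ((N h T : ℝ) ^ 2 / T ^ r)) atTop
      (𝓝 (Real.log (kc pair lam g g'))) :=
    ((Real.continuousAt_log hc0.ne').tendsto).comp hR
  have h2 := h1.comp Real.tendsto_log_atTop
  refine h2.congr' ?_
  filter_upwards [Real.tendsto_log_atTop.eventually (N_pos hp hg hg'),
    Real.tendsto_log_atTop.eventually (eventually_gt_atTop 0)] with Y hY1 hY2
  simp only [Function.comp_apply]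
  rw [Real.log_div (pow_pos hY1 2).ne' (pow_pos hY2 r).ne', Real.log_pow, Real.log_pow]
  push_cast
  ring

open Pool.Agent.Results.MP_dfae13_nt.FormulaFromFiniteSums in
/-- part (3) -/
theorem part_three (hp : IsPolarised pair lam h) (hg : IsBasis g) (hg' : IsBasis g')
    {T : Set (HeightOneSpectrum (𝓞 K))} {d : ℕ} {P : HeightOneSpectrum (𝓞 K) → Polynomial ℤ}
    (hP : IsWeil T d P) {B : ℝ} (hB : 0 < B) {ρ₀ : ℝ} (hρ₀ : 1 ≤ ρ₀) :
    (∀ ρ ρ' : ℝ, ρ₀ < ρ → ρ < ρ' →
      Tendsto (fun Y : ℝ => S T P ρ ρ' Y + 2 * Real.log (N h (Real.log Y))) atTop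
        (𝓝 (Real.log (B * V r ^ 2 / deg lam) - r * Real.eulerMascheroniConstant / ρ))) ↔
      ∃ Z : ℂ → ℂ, IsLSeries T P Z ∧
        (∀ s : ℂ, InSector ρ₀ s ∨ 3 / 2 < s.re → DifferentiableAt ℂ Z s ∧ Z s ≠ 0) ∧
        ∀ ρ : ℝ, ρ₀ < ρ →
          Tendsto (fun s => Z s / (s - 1) ^ r) (𝓝[{s | InSector ρ s}] 1)
            (𝓝 ((B * Reg pair g g' / (tors G * tors G') : ℝ) : ℂ)) := by
  obtain ⟨hreg, ht1, ht2, hdeg, -⟩ := count hp hg hg'
  have hc0 := kc_pos hp hg hg'
  have hV := V_pos r
  have ht1' : (0 : ℝ) < tors G := by exact_mod_cast ht1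
  have ht2' : (0 : ℝ) < tors G' := by exact_mod_cast ht2
  set A : ℝ := B * Reg pair g g' / (tors G * tors G') with hA
  have hA0 : 0 < A := by rw [hA]; positivity
  have hconst : B * V r ^ 2 / deg lam = A * kc pair lam g g' := by
    rw [hA]
    unfold kc
    field_simp
  have hlogc : Real.log (B * V r ^ 2 / deg lam) = Real.log A + Real.log (kc pair lam g g') := by
    rw [hconst, Real.log_mul hA0.ne' hc0.ne']
  rw [← part_one hP r A hA0 ρ₀ hρ₀]
  have hlog := log_count hp hg hg'
  have key : ∀ ρ ρ' : ℝ, (Tendsto (fun Y : ℝ => S T P ρ ρ' Y + 2 * Real.log (N h (Real.log Y))) atTop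
        (𝓝 (Real.log (B * V r ^ 2 / deg lam) - r * Real.eulerMascheroniConstant / ρ))) ↔
      Tendsto (fun Y : ℝ => S T P ρ ρ' Y + r * Real.log (Real.log Y)) atTop
        (𝓝 (Real.log A - r * Real.eulerMascheroniConstant / ρ)) := by
    intro ρ ρ'
    constructor
    · intro h1
      have h2 := h1.sub hlog
      have e1 : Real.log (B * V r ^ 2 / deg lam) - r * Real.eulerMascheroniConstant / ρ -
          Real.log (kc pair lam g g') = Real.log A - r * Real.eulerMascheroniConstant / ρ := by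
        rw [hlogc]
        ring
      rw [e1] at h2
      refine h2.congr fun Y => ?_
      ring
    · intro h1
      have h2 := h1.add hlog
      have e1 : Real.log A - r * Real.eulerMascheroniConstant / ρ +
          Real.log (kc pair lam g g') =
          Real.log (B * V r ^ 2 / deg lam) - r * Real.eulerMascheroniConstant / ρ := by
        rw [hlogc]
        ring
      rw [e1] at h2
      refine h2.congr fun Y => ?_
      ring
  constructor
  · exact fun h1 ρ ρ' h2 h3 => (key ρ ρ').1 (h1 ρ ρ' h2 h3)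
  · exact fun h1 ρ ρ' h2 h3 => (key ρ ρ').2 (h1 ρ ρ' h2 h3)

end finite

/-- **Main theorem.** Let `G = A(K)`, `G' = A'(K)` with the properties `IsPolarised`.  There are bases of
`G` and `G'` modulo torsion with the same number of elements, and for all such bases: `r` is the rank of
`G` and of `G'`; (1) `N(T)² / T^r → #G_tors #G'_tors V_r² / (deg λ R_A)`; (2) for every family of local
polynomials with the properties `IsLocal` and every continuation `F` of the `L`-function that is
meromorphic at the real points of `[1, 3/2]`, and all `γ > π/2`: for `B ≠ 0` the order of `F` at `1` is `r`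
and the leading coefficient is `B R_A / (#G_tors #G'_tors)` if and only if
`exp S_γ(T) / N(T)² → exp (- r Λ_γ) deg λ / (B V_r²)`, and the order is `r`, `> r`, `< r` if and only if
`|exp S_γ(T)|` has the order of magnitude of `N(T)²`, or the quotient tends to infinity, or to zero; (3) for
the polynomials `P_v`, `v ∈ T`, of the primes of good reduction, `B > 0` and `ρ₀ ≥ 1`, the limits
`S_{ρ,ρ'}(Y) + 2 log N(log Y) → log (B V_r² / deg λ) - r γ / ρ` for all `ρ' > ρ > ρ₀` are equivalent to the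
existence of a continuation without zeros of the `L`-series to the sector with the leading term
`B R_A / (#G_tors #G'_tors) (s - 1)^r` in all smaller sectors. -/
theorem result (K : Type) [Field K] [NumberField K] (G G' : Type) [AddCommGroup G] [AddCommGroup G']
    (pair : G →+ G' →+ ℝ) (lam : G →+ G') (h : G → ℝ) (hp : IsPolarised pair lam h) :
    (∃ (r : ℕ) (g : Fin r → G) (g' : Fin r → G'), IsBasis g ∧ IsBasis g') ∧
    ∀ (r : ℕ) (g : Fin r → G) (g' : Fin r → G'), IsBasis g → IsBasis g' →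
      r = Module.finrank ℤ G ∧ r = Module.finrank ℤ G' ∧ 0 < Reg pair g g' ∧ 0 < tors G ∧
      0 < tors G' ∧ 0 < deg lam ∧
      -- (1)
      Tendsto (fun T : ℝ => (N h T : ℝ) ^ 2 / T ^ r) atTop
        (𝓝 (tors G * tors G' * V r ^ 2 / (deg lam * Reg pair g g'))) ∧
      -- (2)
      (∀ (d : ℕ) (P : HeightOneSpectrum (𝓞 K) → Polynomial ℤ), IsLocal d P → ∀ F : ℂ → ℂ,
        IsContinuation P F → ∀ γ : ℝ, Real.pi / 2 < γ →
        (∀ B : ℝ, B ≠ 0 →
          ((meromorphicOrderAt F 1 = ((r : ℤ) : WithTop ℤ) ∧ meromorphicTrailingCoeffAt F 1 =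
              ((B * Reg pair g g' / (tors G * tors G') : ℝ) : ℂ)) ↔
            Tendsto (fun T : ℝ => Complex.exp (RotatedFormula.S P γ T) / (N h T : ℂ) ^ 2) atTop
              (𝓝 (Complex.exp (-(r * Lambda γ)) * deg lam / (B * V r ^ 2))))) ∧
        (meromorphicOrderAt F 1 = ((r : ℤ) : WithTop ℤ) ↔ ∃ c C : ℝ, 0 < c ∧
          ∀ᶠ T : ℝ in atTop, c * (N h T : ℝ) ^ 2 ≤ ‖Complex.exp (RotatedFormula.S P γ T)‖ ∧
            ‖Complex.exp (RotatedFormula.S P γ T)‖ ≤ C * (N h T : ℝ) ^ 2) ∧
        (((r : ℤ) : WithTop ℤ) < meromorphicOrderAt F 1 ↔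
          Tendsto (fun T : ℝ => ‖Complex.exp (RotatedFormula.S P γ T)‖ / (N h T : ℝ) ^ 2) atTop
            atTop) ∧
        (meromorphicOrderAt F 1 < ((r : ℤ) : WithTop ℤ) ↔
          Tendsto (fun T : ℝ => ‖Complex.exp (RotatedFormula.S P γ T)‖ / (N h T : ℝ) ^ 2) atTop
            (𝓝 0))) ∧
      -- (3)
      ∀ (T : Set (HeightOneSpectrum (𝓞 K))) (d : ℕ) (P : HeightOneSpectrum (𝓞 K) → Polynomial ℤ),
        IsWeil T d P → ∀ B : ℝ, 0 < B → ∀ ρ₀ : ℝ, 1 ≤ ρ₀ →
        ((∀ ρ ρ' : ℝ, ρ₀ < ρ → ρ < ρ' →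
          Tendsto (fun Y : ℝ => FormulaFromFiniteSums.S T P ρ ρ' Y +
            2 * Real.log (N h (Real.log Y))) atTop
            (𝓝 (Real.log (B * V r ^ 2 / deg lam) - r * Real.eulerMascheroniConstant / ρ))) ↔
          ∃ Z : ℂ → ℂ, IsLSeries T P Z ∧
            (∀ s : ℂ, InSector ρ₀ s ∨ 3 / 2 < s.re → DifferentiableAt ℂ Z s ∧ Z s ≠ 0) ∧
            ∀ ρ : ℝ, ρ₀ < ρ →
              Tendsto (fun s => Z s / (s - 1) ^ r) (𝓝[{s | InSector ρ s}] 1)
                (𝓝 ((B * Reg pair g g' / (tors G * tors G') : ℝ) : ℂ))) := by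
  refine ⟨bases hp, fun r g g' hg hg' => ?_⟩
  obtain ⟨h1, h2, h3, h4, h5⟩ := count hp hg hg'
  have e1 := Pool.Agent.TH942.card_basis hg
  have e2 := Pool.Agent.TH942.card_basis hg'
  rw [Fintype.card_fin] at e1 e2
  exact ⟨e1.symm, e2.symm, h1, h2, h3, h4, h5, fun d P hP F hF γ hγ => part_two hp hg hg' hP hF hγ,
    fun T d P hP B hB ρ₀ hρ₀ => part_three hp hg hg' hP hB hρ₀⟩

end Pool.Agent.Results.MP_dfae13_nt.RegulatorFree
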